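import Mathlib

namespace Pool.Agent.Work.MP_cdf40b_al

open MvPolynomial

attribute [local instance 100] LieRing.ofAssociativeRing

/-- index set of the basis `e₁,e₂,e₃,f₁,f₂,f₃` of `ℂ^6`. -/
abbrev I : Type := Fin 3 ⊕ Fin 3

/-- the Lie algebra `sp₆(ℂ)`. -/
abbrev sp6 : LieSubalgebra ℂ (Matrix I I ℂ) := LieAlgebra.Symplectic.sp (Fin 3) ℂ

/-- `sp₆(ℂ)` as a type. -/
def Sp6 : Type := sp6

noncomputable instance instLieRingSp6 : LieRing Sp6 := LieSubalgebra.lieRing ℂ _ sp6

noncomputable instance instLieAlgebraSp6 : LieAlgebra ℂ Sp6 := LieSubalgebra.lieAlgebra ℂ _ sp6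

/-- the underlying matrix -/
def mat (A : Sp6) : Matrix I I ℂ := A.1

/-- position in the ordering `e₁ > e₂ > e₃ > f₃ > f₂ > f₁`. -/
def ht : I → ℤ := Sum.elim (fun i => 3 - (i : ℤ)) (fun i => (i : ℤ) - 3)

/-- upper triangular for that ordering: the standard Borel subalgebra. -/
def InBorel (A : Matrix I I ℂ) : Prop := ∀ i j, ht i < ht j → A i j = 0

/-- the plane `⟨e_p, f_p⟩` containing a basis vector. -/
def plane : I → Fin 3 := Sum.elim id id

/-- preserving each of the three planes: the subalgebra `sl₂³`. -/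
def InH (A : Matrix I I ℂ) : Prop := ∀ i j, plane i ≠ plane j → A i j = 0

/-- the action of a matrix on the symmetric algebra of the natural module. -/
noncomputable def act {σ : Type} [Fintype σ] (A : Matrix σ σ ℂ) (f : MvPolynomial σ ℂ) :
    MvPolynomial σ ℂ :=
  ∑ i, ∑ j, A i j • (X i * pderiv j f)

/-- `Sym^{x 0} ⊗ Sym^{x 1} ⊗ Sym^{x 2}`: polynomials of degree `x p` in the pair `e_p, f_p`. -/
noncomputable def piMod (x : Fin 3 → ℕ) : Submodule ℂ (MvPolynomial I ℂ) :=
  weightedHomogeneousSubmodule ℂ (fun i : I => (Pi.single (plane i) 1 : Fin 3 → ℕ)) x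

/-- the conjectured multiplicity. -/
def mu (a b : ℕ) (x : Fin 3 → ℕ) : ℕ :=
  ∑ k ∈ Finset.range (b + 1),
    if x 0 + x 1 + x 2 = a + 2 * b - 2 * k ∧ ∀ i, x i ≤ a + b - k then
      (k + 1) * (min (min (min (x 0) (a + b - k - x 0))
        (min (min (x 1) (a + b - k - x 1)) (min (x 2) (a + b - k - x 2)))) (min a (b - k)) + 1)
    else 0

open scoped DirectSum in
/-- `V` is isomorphic to the direct sum of the subspaces `π j` of `M`, by a linear isomorphism that
intertwines the operators `ρ A` on `V` and `τ A` on the summands for all `A` satisfying `S`. -/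
def SumIso {L M J : Type} {V : Type*} [AddCommGroup V] [Module ℂ V] [AddCommGroup M] [Module ℂ M]
    (S : L → Prop) (ρ : L → V → V) (τ : L → M → M) (π : J → Submodule ℂ M) : Prop :=
  ∃ e : V ≃ₗ[ℂ] ⨁ j, π j, ∀ A, S A → ∀ (u : V) (j : J), (e (ρ A u) j : M) = τ A (e u j : M)

end Pool.Agent.Work.MP_cdf40b_al
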