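import Mathlib
import Pool.Agent.Work.MP_cdf40b_al.Defs

-- merged part: Pool.Agent.Work.MP_cdf40b_al.Cyc
section
namespace Pool.Agent.Work.MP_cdf40b_al

open Module

attribute [local instance 100] LieRing.ofAssociativeRing

section herm
variable {M : Type*} [AddCommGroup M] [Module ℂ M]

theorem le_of_orth (c : InnerProductSpace.Core ℂ M) (U V : Submodule ℂ M) [FiniteDimensional ℂ U]
    (hUV : U ≤ V) (h : ∀ v ∈ V, (∀ u ∈ U, c.inner u v = 0) → v = 0) : V ≤ U := by
  let : NormedAddCommGroup M := InnerProductSpace.Core.toNormedAddCommGroup (cd := c)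
  let : InnerProductSpace ℂ M := InnerProductSpace.ofCore c.toCore
  have h1 := Submodule.sup_orthogonal_inf_of_hasOrthogonalProjection hUV
  have h2 : Uᗮ ⊓ V = ⊥ := by
    rw [eq_bot_iff]
    rintro v ⟨hv1, hv2⟩
    exact h v hv2 (fun u hu => hv1 u hu)
  rw [h2, sup_bot_eq] at h1
  exact h1.ge

theorem exists_proj (c : InnerProductSpace.Core ℂ M) (U : Submodule ℂ M) [FiniteDimensional ℂ U]
    (w : M) : ∃ u ∈ U, ∀ v ∈ U, c.inner v (w - u) = 0 := by
  let : NormedAddCommGroup M := InnerProductSpace.Core.toNormedAddCommGroup (cd := c)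
  let : InnerProductSpace ℂ M := InnerProductSpace.ofCore c.toCore
  obtain ⟨u, hu, h⟩ := Submodule.HasOrthogonalProjection.exists_orthogonal (K := U) w
  exact ⟨u, hu, fun v hv => h v hv⟩

theorem exists_orth_basis (c : InnerProductSpace.Core ℂ M) (W : Submodule ℂ M)
    [FiniteDimensional ℂ W] :
    ∃ b : Fin (finrank ℂ W) → M, (∀ i, b i ∈ W) ∧ (∀ i, b i ≠ 0) ∧
      (∀ i j, i ≠ j → c.inner (b i) (b j) = 0) ∧
      ∀ v, (∀ i, c.inner (b i) v = 0) → ∀ w ∈ W, c.inner w v = 0 := by
  let : NormedAddCommGroup M := InnerProductSpace.Core.toNormedAddCommGroup (cd := c)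
  let : InnerProductSpace ℂ M := InnerProductSpace.ofCore c.toCore
  let b := stdOrthonormalBasis ℂ W
  refine ⟨fun i => (b i : M), fun i => (b i).2, fun i h => ?_, fun i j hij => ?_, ?_⟩
  · have := b.orthonormal.ne_zero i
    exact this (Subtype.ext h)
  · exact b.orthonormal.inner_eq_zero hij
  · intro v hv w hw
    have h1 : (⟨w, hw⟩ : W) = ∑ i, b.repr ⟨w, hw⟩ i • b i := (b.sum_repr ⟨w, hw⟩).symm
    have h2 : w = ∑ i, b.repr ⟨w, hw⟩ i • (b i : M) := by
      have := congrArg Subtype.val h1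
      simpa using this
    change inner ℂ w v = 0
    rw [h2, sum_inner]
    refine Finset.sum_eq_zero fun i _ => ?_
    rw [inner_smul_left]
    have : inner ℂ (b i : M) v = 0 := hv i
    rw [this, mul_zero]

theorem core_add_right (c : InnerProductSpace.Core ℂ M) (x y z : M) :
    c.inner x (y + z) = c.inner x y + c.inner x z :=
  InnerProductSpace.Core.inner_add_right (c := c.toCore) x y z

theorem core_smul_right (c : InnerProductSpace.Core ℂ M) (x y : M) (r : ℂ) :
    c.inner x (r • y) = r * c.inner x y :=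
  InnerProductSpace.Core.inner_smul_right (c := c.toCore) x y

theorem core_zero_left (c : InnerProductSpace.Core ℂ M) (x : M) : c.inner 0 x = 0 :=
  InnerProductSpace.Core.inner_zero_left (c := c.toCore) x

theorem core_zero_right (c : InnerProductSpace.Core ℂ M) (x : M) : c.inner x 0 = 0 :=
  InnerProductSpace.Core.inner_zero_right (c := c.toCore) x

theorem core_symm_zero (c : InnerProductSpace.Core ℂ M) {x y : M} (h : c.inner x y = 0) :
    c.inner y x = 0 := by
  rw [← c.conj_inner_symm, h, map_zero]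

/-- the functional `c.inner x ·` -/
def ipl (c : InnerProductSpace.Core ℂ M) (x : M) : M →ₗ[ℂ] ℂ where
  toFun y := c.inner x y
  map_add' := core_add_right c x
  map_smul' r y := core_smul_right c x y r

theorem ipl_apply (c : InnerProductSpace.Core ℂ M) (x y : M) : ipl c x y = c.inner x y := rfl

/-- rank-nullity for an adjoint pair -/
theorem finrank_adj (c : InnerProductSpace.Core ℂ M) (A B : Submodule ℂ M)
    [FiniteDimensional ℂ A] (S T : M →ₗ[ℂ] M)
    (hadj : ∀ f g, c.inner (S f) g = c.inner f (T g)) (hS : ∀ f ∈ A, S f ∈ B)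
    (hT : ∀ g ∈ B, T g ∈ A) (hinj : ∀ g ∈ B, T g = 0 → g = 0) :
    finrank ℂ (A ⊓ LinearMap.ker S : Submodule ℂ M) + finrank ℂ B = finrank ℂ A := by
  have h1 : A.map S = B := by
    apply le_antisymm
    · rintro _ ⟨f, hf, rfl⟩
      exact hS f hf
    · apply le_of_orth c
      · rintro _ ⟨f, hf, rfl⟩
        exact hS f hf
      · intro g hg h
        apply hinj g hg
        apply c.definite
        rw [← hadj]
        exact h _ ⟨T g, hT g hg, rfl⟩
  have h2 := LinearMap.finrank_range_add_finrank_ker (S.domRestrict A)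
  rw [LinearMap.range_domRestrict, h1, LinearMap.ker_domRestrict] at h2
  have h3 : finrank ℂ (Submodule.comap A.subtype (LinearMap.ker S)) =
      finrank ℂ (A ⊓ LinearMap.ker S : Submodule ℂ M) := by
    rw [← Submodule.map_comap_subtype]
    exact (Submodule.finrank_map_subtype_eq A _).symm
  omega

end herm

section cyc
variable {L : Type*} [LieRing L] [LieAlgebra ℂ L]
variable {M : Type*} [AddCommGroup M] [Module ℂ M] {M' : Type*} [AddCommGroup M'] [Module ℂ M']

/-- invariance under a set of Lie algebra elements -/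
def Inv (ρ : L →ₗ⁅ℂ⁆ End ℂ M) (S : Set L) (U : Submodule ℂ M) : Prop :=
  ∀ x ∈ S, ∀ u ∈ U, ρ x u ∈ U

/-- minimal invariant -/
def MinInv (ρ : L →ₗ⁅ℂ⁆ End ℂ M) (S : Set L) (U : Submodule ℂ M) : Prop :=
  Inv ρ S U ∧ ∀ U₁ ≤ U, Inv ρ S U₁ → U₁ = ⊥ ∨ U₁ = U

/-- lowering elements -/
def Neg (S : Set L) (h₀ : L) : Set L := {f | f ∈ S ∧ ∃ n : ℕ, 0 < n ∧ ⁅h₀, f⁆ = -((n : ℂ) • f)}

/-- apply a word -/
def word (ρ : L →ₗ⁅ℂ⁆ End ℂ M) (w : M) : List L → M
  | [] => w
  | f :: l => ρ f (word ρ w l)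

def cyc (ρ : L →ₗ⁅ℂ⁆ End ℂ M) (N : Set L) (w : M) : Submodule ℂ M :=
  Submodule.span ℂ {u | ∃ l : List L, (∀ f ∈ l, f ∈ N) ∧ u = word ρ w l}

theorem mem_cyc_self (ρ : L →ₗ⁅ℂ⁆ End ℂ M) (N : Set L) (w : M) : w ∈ cyc ρ N w :=
  Submodule.subset_span ⟨[], by simp, rfl⟩

theorem cyc_inv_neg (ρ : L →ₗ⁅ℂ⁆ End ℂ M) (N : Set L) (w : M) : Inv ρ N (cyc ρ N w) := by
  intro f hf u hu
  induction hu using Submodule.span_induction with
  | mem u hu =>
    obtain ⟨l, hl, rfl⟩ := hu
    exact Submodule.subset_span ⟨f :: l, by simpa [hf] using hl, rfl⟩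
  | zero => simp
  | add x y _ _ hx hy => rw [map_add]; exact add_mem hx hy
  | smul a x _ hx => rw [map_smul]; exact Submodule.smul_mem _ a hx

theorem inv_span {ρ : L →ₗ⁅ℂ⁆ End ℂ M} {N : Set L} {U : Submodule ℂ M} (h : Inv ρ N U) :
    Inv ρ (Submodule.span ℂ N : Set L) U := by
  intro y hy u hu
  induction hy using Submodule.span_induction with
  | mem y hy => exact h y hy u hu
  | zero => simp
  | add x y _ _ hx hy => rw [map_add]; exact add_mem hx hy
  | smul a x _ hx => rw [map_smul]; exact Submodule.smul_mem _ a hx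

theorem cyc_le {ρ : L →ₗ⁅ℂ⁆ End ℂ M} {N : Set L} {w : M} {U : Submodule ℂ M} (h : Inv ρ N U)
    (hw : w ∈ U) : cyc ρ N w ≤ U := by
  rw [cyc, Submodule.span_le]
  rintro _ ⟨l, hl, rfl⟩
  induction l with
  | nil => exact hw
  | cons f l ih =>
    exact h f (hl f (by simp)) _ (ih fun g hg => hl g (by simp [hg]))

theorem cyc_inv {ρ : L →ₗ⁅ℂ⁆ End ℂ M} {S N : Set L} (hS : ∀ x ∈ S, ∀ y ∈ S, ⁅x, y⁆ ∈ S)
    (hN : N ⊆ S) {w : M}
    (hdec : ∀ x ∈ S, ∃ c : ℂ, ∃ y ∈ Submodule.span ℂ N, ρ x w = c • w + ρ y w) :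
    Inv ρ S (cyc ρ N w) := by
  have key : ∀ l : List L, (∀ f ∈ l, f ∈ N) → ∀ x ∈ S, ρ x (word ρ w l) ∈ cyc ρ N w := by
    intro l
    induction l with
    | nil =>
      intro _ x hx
      obtain ⟨c, y, hy, h⟩ := hdec x hx
      change ρ x w ∈ _
      rw [h]
      exact add_mem (Submodule.smul_mem _ c (mem_cyc_self ρ N w))
        (inv_span (cyc_inv_neg ρ N w) y hy w (mem_cyc_self ρ N w))
    | cons f l ih =>
      intro hl x hx
      have hf : f ∈ N := hl f (by simp)
      have ih' := ih fun g hg => hl g (by simp [hg])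
      change ρ x (ρ f (word ρ w l)) ∈ _
      have : ρ x (ρ f (word ρ w l)) = ρ f (ρ x (word ρ w l)) + ρ ⁅x, f⁆ (word ρ w l) := by
        rw [LieHom.map_lie, LieRing.of_associative_ring_bracket]
        simp
      rw [this]
      exact add_mem (cyc_inv_neg ρ N w f hf _ (ih' x hx)) (ih' _ (hS x hx f (hN hf)))
  intro x hx u hu
  induction hu using Submodule.span_induction with
  | mem u hu =>
    obtain ⟨l, hl, rfl⟩ := hu
    exact key l hl x hx
  | zero => simp
  | add x y _ _ hx hy => rw [map_add]; exact add_mem hx hy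
  | smul a x _ hx => rw [map_smul]; exact Submodule.smul_mem _ a hx

theorem word_eigen {ρ : L →ₗ⁅ℂ⁆ End ℂ M} {S : Set L} {h₀ : L} {w : M} {κ : ℂ}
    (hw : ρ h₀ w = κ • w) (l : List L) (hl : ∀ f ∈ l, f ∈ Neg S h₀) :
    ∃ n : ℕ, l.length ≤ n ∧ ρ h₀ (word ρ w l) = (κ - n) • word ρ w l := by
  induction l with
  | nil => exact ⟨0, le_rfl, by simpa [word] using hw⟩
  | cons f l ih =>
    obtain ⟨n, hn, h⟩ := ih fun g hg => hl g (by simp [hg])
    obtain ⟨-, m, hm, hf⟩ := hl f (by simp)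
    refine ⟨n + m, by simp; omega, ?_⟩
    change ρ h₀ (ρ f (word ρ w l)) = _ • ρ f (word ρ w l)
    have : ρ h₀ (ρ f (word ρ w l)) = ρ f (ρ h₀ (word ρ w l)) + ρ ⁅h₀, f⁆ (word ρ w l) := by
      rw [LieHom.map_lie, LieRing.of_associative_ring_bracket]
      simp
    rw [this, h, hf, map_smul, map_neg, map_smul]
    simp only [LinearMap.neg_apply, LinearMap.smul_apply]
    push_cast
    module

theorem cyc_top {ρ : L →ₗ⁅ℂ⁆ End ℂ M} {S : Set L} {h₀ : L} {w : M} {κ : ℂ}
    (hw : ρ h₀ w = κ • w) {u : M} (hu : u ∈ cyc ρ (Neg S h₀) w) (h : ρ h₀ u = κ • u) :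
    ∃ c : ℂ, u = c • w := by
  have h1 : cyc ρ (Neg S h₀) w ≤ Submodule.span ℂ {w} ⊔ ⨆ μ ≠ κ, (ρ h₀).eigenspace μ := by
    rw [cyc, Submodule.span_le]
    rintro _ ⟨l, hl, rfl⟩
    cases l with
    | nil => exact Submodule.mem_sup_left (Submodule.mem_span_singleton_self w)
    | cons f l =>
      obtain ⟨n, hn, h⟩ := word_eigen hw (f :: l) hl
      apply Submodule.mem_sup_right
      have hn0 : (n : ℂ) ≠ 0 := by
        have : n ≠ 0 := by simp at hn; omega
        exact_mod_cast this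
      have : κ - n ≠ κ := by simpa using hn0
      exact Submodule.mem_iSup_of_mem (κ - n) (Submodule.mem_iSup_of_mem this
        (End.mem_eigenspace_iff.2 h))
  obtain ⟨a, ha, b, hb, rfl⟩ := Submodule.mem_sup.1 (h1 hu)
  obtain ⟨c, rfl⟩ := Submodule.mem_span_singleton.1 ha
  have h2 : b ∈ (ρ h₀).eigenspace κ := by
    rw [End.mem_eigenspace_iff]
    rw [map_add, map_smul, hw, smul_add, smul_comm κ c w] at h
    exact add_left_cancel h
  have h3 := (ρ h₀).eigenspaces_iSupIndep κ
  have h4 : b = 0 := (Submodule.disjoint_def.1 h3) b h2 hb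
  exact ⟨c, by simp [h4]⟩

theorem cyc_orth {ρ : L →ₗ⁅ℂ⁆ End ℂ M} {N : Set L} {w : M} (φ : M →ₗ[ℂ] ℂ) (h0 : φ w = 0)
    (h1 : ∀ f ∈ N, ∀ u, φ (ρ f u) = 0) : cyc ρ N w ≤ LinearMap.ker φ := by
  rw [cyc, Submodule.span_le]
  rintro _ ⟨l, hl, rfl⟩
  cases l with
  | nil => exact h0
  | cons f l => exact h1 f (hl f (by simp)) _

/-- product representation -/
def prodRep (ρ : L →ₗ⁅ℂ⁆ End ℂ M) (ρ' : L →ₗ⁅ℂ⁆ End ℂ M') : L →ₗ⁅ℂ⁆ End ℂ (M × M') where
  toFun x := LinearMap.prodMap (ρ x) (ρ' x)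
  map_add' x y := by ext <;> simp
  map_smul' a x := by ext <;> simp
  map_lie' {x y} := by
    ext <;> simp [LieRing.of_associative_ring_bracket]

theorem prodRep_apply (ρ : L →ₗ⁅ℂ⁆ End ℂ M) (ρ' : L →ₗ⁅ℂ⁆ End ℂ M') (x : L) (u : M × M') :
    prodRep ρ ρ' x u = (ρ x u.1, ρ' x u.2) := rfl

theorem uniq_equiv {ρ : L →ₗ⁅ℂ⁆ End ℂ M} {ρ' : L →ₗ⁅ℂ⁆ End ℂ M'} {S : Set L}
    (hS : ∀ x ∈ S, ∀ y ∈ S, ⁅x, y⁆ ∈ S) {h₀ : L} {w : M} {w' : M'} {κ : ℂ}
    (hw : ρ h₀ w = κ • w) (hw' : ρ' h₀ w' = κ • w') (hw0 : w ≠ 0) (hw0' : w' ≠ 0)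
    (hdec : ∀ x ∈ S, ∃ c : ℂ, ∃ y ∈ Submodule.span ℂ (Neg S h₀),
      ρ x w = c • w + ρ y w ∧ ρ' x w' = c • w' + ρ' y w')
    {U : Submodule ℂ M} {U' : Submodule ℂ M'} (hU : MinInv ρ S U) (hU' : MinInv ρ' S U')
    (hwU : w ∈ U) (hwU' : w' ∈ U') :
    ∃ e : U ≃ₗ[ℂ] U', ∀ x ∈ S, ∀ u v : U, (v : M) = ρ x u → (e v : M') = ρ' x (e u) := by
  set G := cyc (prodRep ρ ρ') (Neg S h₀) (w, w') with hG
  have hNS : Neg S h₀ ⊆ S := fun f hf => hf.1
  have hGinv : Inv (prodRep ρ ρ') S G := by
    apply cyc_inv hS hNS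
    intro x hx
    obtain ⟨c, y, hy, h1, h2⟩ := hdec x hx
    exact ⟨c, y, hy, by simp [prodRep_apply, h1, h2]⟩
  have hGle : G ≤ U.prod U' := by
    apply cyc_le
    · intro f hf u hu
      exact ⟨hU.1 f (hNS hf) _ hu.1, hU'.1 f (hNS hf) _ hu.2⟩
    · exact ⟨hwU, hwU'⟩
  have hmem : (w, w') ∈ G := mem_cyc_self _ _ _
  have heig : prodRep ρ ρ' h₀ (w, w') = κ • (w, w') := by simp [prodRep_apply, hw, hw']
  have hk1 : ∀ u, (u, (0 : M')) ∈ G → u = 0 := by
    have : (G.comap (LinearMap.inl ℂ M M')) = ⊥ ∨ (G.comap (LinearMap.inl ℂ M M')) = U := by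
      apply hU.2
      · intro u hu
        exact (hGle hu).1
      · intro x hx u hu
        have := hGinv x hx _ hu
        simpa [prodRep_apply] using this
    rcases this with h | h
    · intro u hu
      have : u ∈ G.comap (LinearMap.inl ℂ M M') := hu
      rwa [h] at this
    · exfalso
      have h2 : (w, (0 : M')) ∈ G := by
        have : w ∈ G.comap (LinearMap.inl ℂ M M') := h ▸ hwU
        exact this
      obtain ⟨c, hc⟩ := cyc_top heig h2 (by simp [prodRep_apply, hw])
      simp only [Prod.smul_mk, Prod.mk.injEq] at hc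
      have hc0 : c = 0 := by
        rcases smul_eq_zero.1 hc.2.symm with h | h
        · exact h
        · exact absurd h hw0'
      apply hw0
      rw [hc.1, hc0, zero_smul]
  have hk2 : ∀ u, ((0 : M), u) ∈ G → u = 0 := by
    have : (G.comap (LinearMap.inr ℂ M M')) = ⊥ ∨ (G.comap (LinearMap.inr ℂ M M')) = U' := by
      apply hU'.2
      · intro u hu
        exact (hGle hu).2
      · intro x hx u hu
        have := hGinv x hx _ hu
        simpa [prodRep_apply] using this
    rcases this with h | h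
    · intro u hu
      have : u ∈ G.comap (LinearMap.inr ℂ M M') := hu
      rwa [h] at this
    · exfalso
      have h2 : ((0 : M), w') ∈ G := by
        have : w' ∈ G.comap (LinearMap.inr ℂ M M') := h ▸ hwU'
        exact this
      obtain ⟨c, hc⟩ := cyc_top heig h2 (by simp [prodRep_apply, hw'])
      simp only [Prod.smul_mk, Prod.mk.injEq] at hc
      have hc0 : c = 0 := by
        rcases smul_eq_zero.1 hc.1.symm with h | h
        · exact h
        · exact absurd h hw0
      apply hw0'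
      rw [hc.2, hc0, zero_smul]
  have hs1 : G.map (LinearMap.fst ℂ M M') = U := by
    have : G.map (LinearMap.fst ℂ M M') = ⊥ ∨ G.map (LinearMap.fst ℂ M M') = U := by
      apply hU.2
      · rintro _ ⟨u, hu, rfl⟩
        exact (hGle hu).1
      · rintro x hx _ ⟨u, hu, rfl⟩
        exact ⟨_, hGinv x hx u hu, rfl⟩
    rcases this with h | h
    · exfalso
      have : w ∈ G.map (LinearMap.fst ℂ M M') := ⟨_, hmem, rfl⟩
      rw [h] at this
      exact hw0 this
    · exact h
  have hs2 : G.map (LinearMap.snd ℂ M M') = U' := by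
    have : G.map (LinearMap.snd ℂ M M') = ⊥ ∨ G.map (LinearMap.snd ℂ M M') = U' := by
      apply hU'.2
      · rintro _ ⟨u, hu, rfl⟩
        exact (hGle hu).2
      · rintro x hx _ ⟨u, hu, rfl⟩
        exact ⟨_, hGinv x hx u hu, rfl⟩
    rcases this with h | h
    · exfalso
      have : w' ∈ G.map (LinearMap.snd ℂ M M') := ⟨_, hmem, rfl⟩
      rw [h] at this
      exact hw0' this
    · exact h
  let p1 : G →ₗ[ℂ] U := ((LinearMap.fst ℂ M M').domRestrict G).codRestrict U
    (fun g => (hGle g.2).1)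
  let p2 : G →ₗ[ℂ] U' := ((LinearMap.snd ℂ M M').domRestrict G).codRestrict U'
    (fun g => (hGle g.2).2)
  have b1 : Function.Bijective p1 := by
    constructor
    · rw [injective_iff_map_eq_zero]
      rintro ⟨⟨u, u'⟩, hu⟩ h
      have h1 : u = 0 := congrArg Subtype.val h
      subst h1
      have := hk2 u' hu
      subst this
      rfl
    · rintro ⟨u, hu⟩
      rw [← hs1] at hu
      obtain ⟨g, hg, rfl⟩ := hu
      exact ⟨⟨g, hg⟩, rfl⟩
  have b2 : Function.Bijective p2 := by
    constructor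
    · rw [injective_iff_map_eq_zero]
      rintro ⟨⟨u, u'⟩, hu⟩ h
      have h1 : u' = 0 := congrArg Subtype.val h
      subst h1
      have := hk1 u hu
      subst this
      rfl
    · rintro ⟨u, hu⟩
      rw [← hs2] at hu
      obtain ⟨g, hg, rfl⟩ := hu
      exact ⟨⟨g, hg⟩, rfl⟩
  refine ⟨(LinearEquiv.ofBijective p1 b1).symm.trans (LinearEquiv.ofBijective p2 b2), ?_⟩
  intro x hx u v huv
  obtain ⟨g, rfl⟩ := b1.2 u
  have hv : v = p1 ⟨_, hGinv x hx g g.2⟩ := Subtype.ext huv
  rw [hv]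
  have e1 : ∀ g, (LinearEquiv.ofBijective p1 b1).symm (p1 g) = g := fun g =>
    (LinearEquiv.ofBijective p1 b1).symm_apply_apply g
  simp only [LinearEquiv.trans_apply, e1]
  rfl

/-- orthogonal complements of invariant subspaces are invariant -/
theorem inv_orth (c : InnerProductSpace.Core ℂ M) {ρ : L →ₗ⁅ℂ⁆ End ℂ M} {S : Set L}
    (hadj : ∀ x ∈ S, ∃ y ∈ S, ∀ u v, c.inner u (ρ x v) = c.inner (ρ y u) v)
    {U : Submodule ℂ M} (hU : Inv ρ S U) :
    Inv ρ S (⨅ u ∈ U, LinearMap.ker (ipl c u)) := by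
  intro x hx v hv
  obtain ⟨y, hy, h⟩ := hadj x hx
  simp only [Submodule.mem_iInf, LinearMap.mem_ker, ipl_apply] at hv ⊢
  intro u hu
  rw [h]
  exact hv _ (hU y hy u hu)

theorem inv_inf {ρ : L →ₗ⁅ℂ⁆ End ℂ M} {S : Set L} {U V : Submodule ℂ M} (hU : Inv ρ S U)
    (hV : Inv ρ S V) : Inv ρ S (U ⊓ V) :=
  fun x hx u hu => ⟨hU x hx u hu.1, hV x hx u hu.2⟩

/-- a finite dimensional unitary module all of whose nonzero submodules contain `w`
is irreducible -/
theorem minInv_of_socle (c : InnerProductSpace.Core ℂ M) {ρ : L →ₗ⁅ℂ⁆ End ℂ M} {S : Set L}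
    (hadj : ∀ x ∈ S, ∃ y ∈ S, ∀ u v, c.inner u (ρ x v) = c.inner (ρ y u) v)
    {V : Submodule ℂ M} [FiniteDimensional ℂ V] (hV : Inv ρ S V) {w : M} (hw : w ≠ 0)
    (hsoc : ∀ U ≤ V, Inv ρ S U → U ≠ ⊥ → w ∈ U) : MinInv ρ S V := by
  refine ⟨hV, fun U hUV hU => ?_⟩
  by_cases h0 : U = ⊥
  · exact Or.inl h0
  right
  have : FiniteDimensional ℂ U := Submodule.finiteDimensional_of_le hUV
  refine le_antisymm hUV (le_of_orth c U V hUV fun v hv h => ?_)
  by_contra hv0
  have h1 : w ∈ V ⊓ ⨅ u ∈ U, LinearMap.ker (ipl c u) := by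
    apply hsoc _ inf_le_left (inv_inf hV (inv_orth c hadj hU))
    intro hb
    have : v ∈ V ⊓ ⨅ u ∈ U, LinearMap.ker (ipl c u) := by
      refine ⟨hv, ?_⟩
      simp only [SetLike.mem_coe, Submodule.mem_iInf, LinearMap.mem_ker, ipl_apply]
      exact h
    rw [hb] at this
    exact hv0 this
  have h2 := h1.2
  simp only [SetLike.mem_coe, Submodule.mem_iInf, LinearMap.mem_ker, ipl_apply] at h2
  exact hw (c.definite w (h2 w (hsoc U hUV hU h0)))

/-- the cyclic module generated by a primitive vector in a unitary module is irreducible -/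
theorem minInv_cyc (c : InnerProductSpace.Core ℂ M) {ρ : L →ₗ⁅ℂ⁆ End ℂ M} {S : Set L}
    (hS : ∀ x ∈ S, ∀ y ∈ S, ⁅x, y⁆ ∈ S)
    (hadj : ∀ x ∈ S, ∃ y ∈ S, ∀ u v, c.inner u (ρ x v) = c.inner (ρ y u) v)
    {h₀ : L} (hh : h₀ ∈ S) {w : M} {κ : ℂ} (hw : ρ h₀ w = κ • w)
    (hdec : ∀ x ∈ S, ∃ c : ℂ, ∃ y ∈ Submodule.span ℂ (Neg S h₀), ρ x w = c • w + ρ y w)
    [FiniteDimensional ℂ (cyc ρ (Neg S h₀) w)] : MinInv ρ S (cyc ρ (Neg S h₀) w) := by
  have hNS : Neg S h₀ ⊆ S := fun f hf => hf.1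
  have hinv := cyc_inv hS hNS hdec
  refine ⟨hinv, fun U hUV hU => ?_⟩
  have : FiniteDimensional ℂ U := Submodule.finiteDimensional_of_le hUV
  obtain ⟨u, hu, hwu⟩ := exists_proj c U w
  have hO := inv_orth c hadj hU
  have hmemO : ∀ v, v ∈ (⨅ u ∈ U, LinearMap.ker (ipl c u)) ↔ ∀ u ∈ U, c.inner u v = 0 := by
    intro v
    simp only [Submodule.mem_iInf, LinearMap.mem_ker, ipl_apply]
  have h1 : ρ h₀ u - κ • u ∈ U := sub_mem (hU h₀ hh u hu) (U.smul_mem κ hu)
  have h2 : ρ h₀ u - κ • u ∈ (⨅ u ∈ U, LinearMap.ker (ipl c u)) := by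
    have h3 := (hmemO _).2 hwu
    have h4 := sub_mem (Submodule.smul_mem _ κ h3) (hO h₀ hh _ h3)
    have h5 : κ • (w - u) - ρ h₀ (w - u) = ρ h₀ u - κ • u := by
      rw [map_sub, hw]; module
    rwa [h5] at h4
  have h3 : ρ h₀ u = κ • u := sub_eq_zero.1 (c.definite _ ((hmemO _).1 h2 _ h1))
  obtain ⟨a, ha⟩ := cyc_top hw (hUV hu) h3
  by_cases ha0 : a = 0
  · left
    have hu0 : u = 0 := by rw [ha, ha0, zero_smul]
    rw [hu0, sub_zero] at hwu
    have h4 : cyc ρ (Neg S h₀) w ≤ ⨅ u ∈ U, LinearMap.ker (ipl c u) :=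
      cyc_le (fun x hx => hO x (hNS hx)) ((hmemO _).2 hwu)
    rw [eq_bot_iff]
    intro v hv
    exact c.definite v ((hmemO _).1 (h4 (hUV hv)) v hv)
  · right
    refine le_antisymm hUV (cyc_le (fun x hx => hU x (hNS hx)) ?_)
    have : w = a⁻¹ • u := by rw [ha, smul_smul, inv_mul_cancel₀ ha0, one_smul]
    rw [this]
    exact U.smul_mem _ hu

end cyc

end Pool.Agent.Work.MP_cdf40b_al
end

-- merged part: Pool.Agent.Work.MP_cdf40b_al.Fischer
section
namespace Pool.Agent.Work.MP_cdf40b_al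

open MvPolynomial
open Module (End finrank)
open scoped ComplexConjugate Matrix

attribute [local instance 100] LieRing.ofAssociativeRing

variable {σ : Type} [Fintype σ] [DecidableEq σ]

/-- `act` as a derivation -/
noncomputable def actD (A : Matrix σ σ ℂ) : Derivation ℂ (MvPolynomial σ ℂ) (MvPolynomial σ ℂ) :=
  mkDerivation ℂ fun j => ∑ i, A i j • X i

omit [DecidableEq σ] in
theorem actD_X (A : Matrix σ σ ℂ) (j : σ) : actD A (X j) = ∑ i, A i j • X i := by
  simp [actD]

theorem actD_eq (A : Matrix σ σ ℂ) (f : MvPolynomial σ ℂ) : actD A f = act A f := by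
  let D : Derivation ℂ (MvPolynomial σ ℂ) (MvPolynomial σ ℂ) :=
    ∑ i, ∑ j, (A i j • (X i : MvPolynomial σ ℂ)) • pderiv j
  have hD : ∀ f, D f = act A f := by
    intro f
    have hs : ∀ (s : Finset σ) (g : σ → Derivation ℂ (MvPolynomial σ ℂ) (MvPolynomial σ ℂ)),
        (∑ i ∈ s, g i) f = ∑ i ∈ s, g i f := by
      intro s g
      induction s using Finset.induction_on with
      | empty => simp
      | insert a s ha ih => rw [Finset.sum_insert ha, Finset.sum_insert ha, Derivation.add_apply, ih]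
    simp [D, act, hs]
  rw [← hD]
  congr 1
  apply derivation_ext
  intro k
  rw [hD, actD_X, act]
  refine Finset.sum_congr rfl fun i _ => ?_
  rw [Finset.sum_eq_single k]
  · simp
  · intro j _ hj
    rw [pderiv_X_of_ne (Ne.symm hj)]; simp
  · simp

/-- `act` as a Lie algebra homomorphism -/
noncomputable def actL : Matrix σ σ ℂ →ₗ⁅ℂ⁆ End ℂ (MvPolynomial σ ℂ) where
  toFun A := (actD A).toLinearMap
  map_add' A B := by
    ext1 s; ext1
    simp [actD_eq, act, add_smul, Finset.sum_add_distrib]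
  map_smul' c A := by
    ext1 s; ext1
    simp [actD_eq, act, Finset.smul_sum, mul_smul]
  map_lie' {A B} := by
    have : actD ⁅A, B⁆ = ⁅actD A, actD B⁆ := by
      apply derivation_ext
      intro k
      rw [Derivation.commutator_apply, actD_X, actD_X, actD_X]
      simp only [map_sum, Derivation.map_smul, actD_X, Finset.smul_sum, smul_smul,
        LieRing.of_associative_ring_bracket, Matrix.sub_apply, Matrix.mul_apply, sub_smul,
        Finset.sum_smul, Finset.sum_sub_distrib]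
      congr 1
      · rw [Finset.sum_comm]; simp only [mul_comm]
      · rw [Finset.sum_comm]; simp only [mul_comm]
    apply LinearMap.ext
    intro f
    change actD ⁅A, B⁆ f = _
    rw [this, Derivation.commutator_apply]
    rfl

theorem actL_apply (A : Matrix σ σ ℂ) (f : MvPolynomial σ ℂ) : actL A f = act A f := actD_eq A f

theorem actL_X (A : Matrix σ σ ℂ) (j : σ) : actL A (X j) = ∑ i, A i j • X i := actD_X A j

theorem actL_mul (A : Matrix σ σ ℂ) (f g : MvPolynomial σ ℂ) :
    actL A (f * g) = f * actL A g + actL A f * g := by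
  change actD A (f * g) = f * actD A g + actD A f * g
  rw [Derivation.leibniz]; simp [mul_comm]

theorem actL_one (A : Matrix σ σ ℂ) : actL A (1 : MvPolynomial σ ℂ) = 0 := by
  change actD A 1 = 0
  simp

theorem actL_pow_eig (A : Matrix σ σ ℂ) {f : MvPolynomial σ ℂ} {c : ℂ} (h : actL A f = c • f)
    (n : ℕ) : actL A (f ^ n) = (n * c) • f ^ n := by
  induction n with
  | zero => simp [actL_one]
  | succ n ih =>
    rw [pow_succ, actL_mul, ih, h]
    simp only [Algebra.mul_smul_comm, Algebra.smul_mul_assoc]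
    push_cast
    module

theorem actL_mul_eig (A : Matrix σ σ ℂ) {f g : MvPolynomial σ ℂ} {c d : ℂ} (h : actL A f = c • f)
    (h' : actL A g = d • g) : actL A (f * g) = (c + d) • (f * g) := by
  rw [actL_mul, h, h']
  simp only [Algebra.mul_smul_comm, Algebra.smul_mul_assoc]
  module

theorem actL_comm {A B : Matrix σ σ ℂ} (h : ⁅A, B⁆ = 0) (f : MvPolynomial σ ℂ) :
    actL A (actL B f) = actL B (actL A f) := by
  have := (actL (σ := σ)).map_lie A B
  rw [h, map_zero, LieRing.of_associative_ring_bracket] at this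
  have h2 := congrArg (fun T => T f) this
  simp only [LinearMap.zero_apply, LinearMap.sub_apply, End.mul_apply] at h2
  exact (sub_eq_zero.1 h2.symm)

theorem actL_lie (A B : Matrix σ σ ℂ) (f : MvPolynomial σ ℂ) :
    actL A (actL B f) = actL B (actL A f) + actL ⁅A, B⁆ f := by
  rw [LieHom.map_lie, LieRing.of_associative_ring_bracket]
  simp

theorem coeff_actL (A : Matrix σ σ ℂ) (f : MvPolynomial σ ℂ) (β : σ →₀ ℕ) :
    coeff β (actL A f) = ∑ u, ∑ v, A u v * (if β u ≠ 0 then
      coeff (β - Finsupp.single u 1 + Finsupp.single v 1) f *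
        (((β - Finsupp.single u 1 : σ →₀ ℕ) v : ℂ) + 1) else 0) := by
  simp only [actL_apply, act, coeff_sum, coeff_smul, coeff_X_mul', coeff_pderiv, smul_eq_mul,
    Finsupp.mem_support_iff]

theorem support_actL {A : Matrix σ σ ℂ} {f : MvPolynomial σ ℂ} {β : σ →₀ ℕ}
    (h : coeff β (actL A f) ≠ 0) : ∃ u v α, A u v ≠ 0 ∧ coeff α f ≠ 0 ∧
      β + Finsupp.single v 1 = α + Finsupp.single u 1 := by
  rw [coeff_actL] at h
  obtain ⟨u, -, h⟩ := Finset.exists_ne_zero_of_sum_ne_zero h
  obtain ⟨v, -, h⟩ := Finset.exists_ne_zero_of_sum_ne_zero h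
  have h1 := left_ne_zero_of_mul h
  have h2 := right_ne_zero_of_mul h
  split_ifs at h2 with h3
  · refine ⟨u, v, _, h1, left_ne_zero_of_mul h2, ?_⟩
    ext w
    simp only [Finsupp.coe_add, Finsupp.coe_tsub, Pi.add_apply, Pi.sub_apply, Finsupp.single_apply]
    split_ifs with h4 h5 h5 <;> (try subst_vars) <;> omega
  · exact absurd rfl h2

theorem hom_actL {G : Type*} [AddCommGroup G] {w : σ → G} {A : Matrix σ σ ℂ} {δ : G}
    (hA : ∀ u v, A u v ≠ 0 → w u = δ + w v) {f : MvPolynomial σ ℂ} {m : G}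
    (hf : IsWeightedHomogeneous w f m) : IsWeightedHomogeneous w (actL A f) (m + δ) := by
  intro β hβ
  obtain ⟨u, v, α, h1, h2, h3⟩ := support_actL hβ
  have h4 := congrArg (Finsupp.weight w) h3
  simp only [map_add, Finsupp.weight_single, one_smul] at h4
  rw [hf h2, hA u v h1, ← add_assoc] at h4
  exact add_right_cancel h4

theorem actL_diag (d : σ → ℂ) {f : MvPolynomial σ ℂ} {c : ℂ}
    (hf : ∀ α, coeff α f ≠ 0 → ∑ u, d u * α u = c) : actL (Matrix.diagonal d) f = c • f := by
  ext β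
  rw [coeff_actL, coeff_smul, smul_eq_mul]
  have h1 : ∀ u, (∑ v, Matrix.diagonal d u v * (if β u ≠ 0 then
      coeff (β - Finsupp.single u 1 + Finsupp.single v 1) f *
        (((β - Finsupp.single u 1 : σ →₀ ℕ) v : ℂ) + 1) else 0)) = d u * β u * coeff β f := by
    intro u
    rw [Finset.sum_eq_single u]
    · rw [Matrix.diagonal_apply_eq]
      split_ifs with h
      · have h2 : β - Finsupp.single u 1 + Finsupp.single u 1 = β :=
          tsub_add_cancel_of_le (Finsupp.single_le_iff.2 (Nat.one_le_iff_ne_zero.2 h))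
        have h3 : (((β - Finsupp.single u 1 : σ →₀ ℕ) u : ℂ) + 1) = β u := by
          have := congrArg (fun x => x u) h2
          simp only [Finsupp.coe_add, Pi.add_apply, Finsupp.single_eq_same] at this
          exact_mod_cast this
        rw [h2, h3]; ring
      · push Not at h
        simp [h]
    · intro v _ hv
      rw [Matrix.diagonal_apply_ne _ (Ne.symm hv), zero_mul]
    · simp
  simp only [h1, ← Finset.sum_mul]
  by_cases h : coeff β f = 0
  · simp [h]
  · rw [hf β h]

/-- existence of primitive vectors -/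
theorem exists_prim (h : σ → ℤ) (N : Set (Matrix σ σ ℂ))
    (hN : ∀ A ∈ N, ∀ u v, A u v ≠ 0 → h v + 1 ≤ h u) (U : Submodule ℂ (MvPolynomial σ ℂ))
    (hU : ∀ A ∈ N, ∀ f ∈ U, actL A f ∈ U) (hU0 : U ≠ ⊥) (B : ℤ)
    (hB : ∀ f ∈ U, ∀ α, coeff α f ≠ 0 → Finsupp.weight h α ≤ B) :
    ∃ f ∈ U, f ≠ 0 ∧ ∀ A ∈ N, actL A f = 0 := by
  let P : ℤ → Prop := fun t => ∃ f ∈ U, f ≠ 0 ∧ ∀ α, coeff α f ≠ 0 → t ≤ Finsupp.weight h α
  have hbdd : ∃ b, ∀ t, P t → t ≤ b := by
    refine ⟨B, ?_⟩
    rintro t ⟨f, hf, hf0, ht⟩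
    obtain ⟨α, hα⟩ := exists_coeff_ne_zero hf0
    exact (ht α hα).trans (hB f hf α hα)
  have hinh : ∃ t, P t := by
    obtain ⟨f, hf, hf0⟩ := Submodule.exists_mem_ne_zero_of_ne_bot hU0
    obtain ⟨t, ht⟩ := (f.support.image (Finsupp.weight h)).bddBelow
    refine ⟨t, f, hf, hf0, fun α hα => ht ?_⟩
    exact Finset.mem_coe.2 (Finset.mem_image_of_mem _ (mem_support_iff.2 hα))
  obtain ⟨t, ⟨f, hf, hf0, ht⟩, hmax⟩ := Int.exists_greatest_of_bdd hbdd hinh
  refine ⟨f, hf, hf0, fun A hA => ?_⟩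
  by_contra hne
  have : P (t + 1) := by
    refine ⟨actL A f, hU A hA f hf, hne, fun β hβ => ?_⟩
    obtain ⟨u, v, α, h1, h2, h3⟩ := support_actL hβ
    have h4 := congrArg (Finsupp.weight h) h3
    simp only [map_add, Finsupp.weight_single, one_smul] at h4
    have := hN A hA u v h1
    have := ht α h2
    omega
  have := hmax _ this
  omega

/-- the slice lemma -/
theorem slice (Z : σ → Prop) [DecidablePred Z] {f : MvPolynomial σ ℂ}
    (hZ : ∀ z, Z z → ∃ (A : Matrix σ σ ℂ) (u₀ : σ), ¬ Z u₀ ∧ A u₀ z ≠ 0 ∧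
      (∀ u v, ¬ Z u → Z v → A u v ≠ 0 → u = u₀ ∧ v = z) ∧ actL A f = 0)
    (hf : ∀ α, coeff α f ≠ 0 → ∃ z, Z z ∧ α z ≠ 0) : f = 0 := by
  by_contra hf0
  let w : σ → ℤ := fun u => if Z u then 1 else 0
  obtain ⟨α, hα, hmin⟩ := f.support.exists_min_image (Finsupp.weight w)
    (support_nonempty.2 hf0)
  rw [mem_support_iff] at hα
  obtain ⟨z, hz, hαz⟩ := hf α hα
  obtain ⟨A, u₀, hu₀, hA0, hA, hAf⟩ := hZ z hz
  have hne : u₀ ≠ z := fun h => hu₀ (h ▸ hz)
  set β := α - Finsupp.single z 1 + Finsupp.single u₀ 1 with hβ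
  have hα1 : α - Finsupp.single z 1 + Finsupp.single z 1 = α :=
    tsub_add_cancel_of_le (Finsupp.single_le_iff.2 (Nat.one_le_iff_ne_zero.2 hαz))
  have hβw : Finsupp.weight w β + 1 = Finsupp.weight w α := by
    conv_rhs => rw [← hα1]
    simp [hβ, map_add, Finsupp.weight_single, w, hz, hu₀]
  have h0 := coeff_actL A f β
  rw [hAf, coeff_zero, Finset.sum_eq_single u₀, Finset.sum_eq_single z] at h0
  · have h1 : β u₀ ≠ 0 := by simp [hβ]
    rw [if_pos h1, hβ, add_tsub_cancel_right, hα1] at h0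
    refine mul_ne_zero hA0 (mul_ne_zero hα ?_) h0.symm
    exact Nat.cast_add_one_ne_zero _
  · intro v _ hv
    by_cases hAv : A u₀ v = 0
    · rw [hAv, zero_mul]
    · have hZv : ¬ Z v := fun h => hv (hA u₀ v hu₀ h hAv).2
      split_ifs with h1
      · have : coeff (β - Finsupp.single u₀ 1 + Finsupp.single v 1) f = 0 := by
          by_contra hc
          have h2 := hmin _ (mem_support_iff.2 hc)
          have h3 : β - Finsupp.single u₀ 1 + Finsupp.single u₀ 1 = β :=
            tsub_add_cancel_of_le (Finsupp.single_le_iff.2 (Nat.one_le_iff_ne_zero.2 h1))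
          rw [← h3] at hβw
          simp [map_add, Finsupp.weight_single, w, hZv, hu₀] at h2 hβw
          omega
        rw [this]; simp
      · simp
  · simp
  · intro u _ hu
    refine Finset.sum_eq_zero fun v _ => ?_
    by_cases hAv : A u v = 0
    · rw [hAv, zero_mul]
    · have hZv : Z u ∨ ¬ Z v := by
        by_contra hc
        push Not at hc
        exact hu (hA u v hc.1 hc.2 hAv).1
      split_ifs with h1
      · have : coeff (β - Finsupp.single u 1 + Finsupp.single v 1) f = 0 := by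
          by_contra hc
          have h2 := hmin _ (mem_support_iff.2 hc)
          have h3 : β - Finsupp.single u 1 + Finsupp.single u 1 = β :=
            tsub_add_cancel_of_le (Finsupp.single_le_iff.2 (Nat.one_le_iff_ne_zero.2 h1))
          rw [← h3] at hβw
          simp only [map_add, Finsupp.weight_single, one_smul] at h2 hβw
          have h4 : w v ≤ w u := by
            simp only [w]
            split_ifs <;> tauto
          omega
        rw [this]; simp
      · simp
  · simp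

/-- set the variables in `Z` to zero -/
noncomputable def kill (Z : σ → Prop) [DecidablePred Z] :
    MvPolynomial σ ℂ →ₐ[ℂ] MvPolynomial σ ℂ := aeval fun u => if Z u then 0 else X u

omit [Fintype σ] [DecidableEq σ] in
theorem kill_X (Z : σ → Prop) [DecidablePred Z] (u : σ) :
    kill Z (X u) = if Z u then 0 else X u := by simp [kill]

omit [Fintype σ] in
theorem coeff_kill (Z : σ → Prop) [DecidablePred Z] (f : MvPolynomial σ ℂ) (α : σ →₀ ℕ)
    [Decidable (∀ z, Z z → α z = 0)] :
    coeff α (kill Z f) = if ∀ z, Z z → α z = 0 then coeff α f else 0 := by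
  classical
  induction f using MvPolynomial.induction_on' with
  | add p q hp hq => rw [map_add, coeff_add, hp, hq, coeff_add]; split_ifs <;> simp
  | monomial β c =>
    have h1 : kill Z (monomial β c) = if ∀ z, Z z → β z = 0 then monomial β c else 0 := by
      rw [kill, aeval_monomial]
      split_ifs with h
      · rw [monomial_eq]
        congr 1
        refine Finsupp.prod_congr fun u hu => ?_
        rw [if_neg fun hz => Finsupp.mem_support_iff.1 hu (h u hz)]
      · push Not at h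
        obtain ⟨z, hz, hβ⟩ := h
        rw [Finsupp.prod, Finset.prod_eq_zero (Finsupp.mem_support_iff.2 hβ), mul_zero]
        rw [if_pos hz, zero_pow hβ]
    rw [h1]
    by_cases hab : β = α
    · subst hab
      split_ifs <;> simp
    · split_ifs <;> simp [coeff_monomial, hab]

theorem slice' (Z : σ → Prop) [DecidablePred Z] {f : MvPolynomial σ ℂ}
    (hZ : ∀ z, Z z → ∃ (A : Matrix σ σ ℂ) (u₀ : σ), ¬ Z u₀ ∧ A u₀ z ≠ 0 ∧
      (∀ u v, ¬ Z u → Z v → A u v ≠ 0 → u = u₀ ∧ v = z) ∧ actL A f = 0)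
    (hf : kill Z f = 0) : f = 0 := by
  classical
  apply slice Z hZ
  intro α hα
  by_contra hc
  push Not at hc
  have := coeff_kill Z f α
  rw [hf, if_pos hc, coeff_zero] at this
  exact hα this.symm

/-! ### the Fischer inner product -/

/-- multi-factorial -/
def fac (α : σ →₀ ℕ) : ℕ := ∏ u, (α u).factorial

omit [DecidableEq σ] in
theorem fac_pos (α : σ →₀ ℕ) : 0 < fac α := Finset.prod_pos fun _ _ => Nat.factorial_pos _

theorem fac_add_single (α : σ →₀ ℕ) (u : σ) :
    fac (α + Finsupp.single u 1) = fac α * (α u + 1) := by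
  unfold fac
  rw [← Finset.mul_prod_erase _ _ (Finset.mem_univ u),
    ← Finset.mul_prod_erase _ (fun u => (α u).factorial) (Finset.mem_univ u)]
  have : ∏ x ∈ Finset.univ.erase u, ((α + Finsupp.single u 1 : σ →₀ ℕ) x).factorial =
      ∏ x ∈ Finset.univ.erase u, (α x).factorial := by
    refine Finset.prod_congr rfl fun x hx => ?_
    have : u ≠ x := (Finset.ne_of_mem_erase hx).symm
    simp [this]
  rw [this, Finsupp.add_apply, Finsupp.single_eq_same, Nat.factorial_succ]
  ring

/-- Fischer pairing -/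
noncomputable def ip (f g : MvPolynomial σ ℂ) : ℂ :=
  ∑ α ∈ f.support, conj (coeff α f) * (fac α : ℂ) * coeff α g

omit [DecidableEq σ] in
theorem ip_eq (f g : MvPolynomial σ ℂ) {s : Finset (σ →₀ ℕ)} (hs : f.support ⊆ s) :
    ip f g = ∑ α ∈ s, conj (coeff α f) * (fac α : ℂ) * coeff α g := by
  apply Finset.sum_subset hs
  intro α _ h
  rw [notMem_support_iff.1 h]; simp

omit [DecidableEq σ] in
theorem ip_eq' (f g : MvPolynomial σ ℂ) :
    ip f g = ∑ α ∈ g.support, conj (coeff α f) * (fac α : ℂ) * coeff α g := by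
  classical
  rw [ip_eq f g (Finset.subset_union_left (s₂ := g.support))]
  symm
  apply Finset.sum_subset Finset.subset_union_right
  intro α _ h
  rw [notMem_support_iff.1 h]; simp

omit [DecidableEq σ] in
theorem ip_self (f : MvPolynomial σ ℂ) :
    ip f f = ((∑ α ∈ f.support, (fac α : ℝ) * Complex.normSq (coeff α f) : ℝ) : ℂ) := by
  rw [ip]
  push_cast
  refine Finset.sum_congr rfl fun α _ => ?_
  rw [Complex.normSq_eq_conj_mul_self]; ring

set_option warn.classDefReducibility false in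
/-- the Fischer inner product -/
noncomputable def fischer (σ : Type) [Fintype σ] : InnerProductSpace.Core ℂ (MvPolynomial σ ℂ) where
  inner := ip
  conj_inner_symm f g := by
    rw [ip_eq' f g, ip, map_sum]
    refine Finset.sum_congr rfl fun α _ => ?_
    simp only [map_mul, Complex.conj_conj, map_natCast]; ring
  re_inner_nonneg f := by
    rw [ip_self]
    simp only [RCLike.re_to_complex, Complex.ofReal_re]
    exact Finset.sum_nonneg fun α _ => mul_nonneg (Nat.cast_nonneg _) (Complex.normSq_nonneg _)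
  add_left f g h := by
    simp only [ip_eq', coeff_add, map_add, ← Finset.sum_add_distrib]
    refine Finset.sum_congr rfl fun α _ => ?_
    ring
  smul_left f g r := by
    simp only [ip_eq', coeff_smul, smul_eq_mul, map_mul, Finset.mul_sum]
    refine Finset.sum_congr rfl fun α _ => ?_
    ring
  definite f h := by
    rw [ip_self] at h
    have h1 : ∑ α ∈ f.support, (fac α : ℝ) * Complex.normSq (coeff α f) = 0 := by exact_mod_cast h
    rw [Finset.sum_eq_zero_iff_of_nonneg
      fun α _ => mul_nonneg (Nat.cast_nonneg _) (Complex.normSq_nonneg _)] at h1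
    ext α
    by_contra hα
    have h2 := h1 α (mem_support_iff.2 hα)
    rcases mul_eq_zero.1 h2 with h3 | h3
    · have := fac_pos α
      exact absurd h3 (by positivity)
    · exact hα (Complex.normSq_eq_zero.1 h3)

omit [DecidableEq σ] in
theorem fischer_inner (f g : MvPolynomial σ ℂ) : (fischer σ).inner f g = ip f g := rfl

omit [DecidableEq σ] in
theorem ip_add_left (f g h : MvPolynomial σ ℂ) : ip (f + g) h = ip f h + ip g h :=
  (fischer σ).add_left f g h

omit [DecidableEq σ] in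
theorem ip_smul_left (f g : MvPolynomial σ ℂ) (r : ℂ) : ip (r • f) g = conj r * ip f g :=
  (fischer σ).smul_left f g r

omit [DecidableEq σ] in
theorem ip_add_right (f g h : MvPolynomial σ ℂ) : ip f (g + h) = ip f g + ip f h :=
  core_add_right (fischer σ) f g h

omit [DecidableEq σ] in
theorem ip_smul_right (f g : MvPolynomial σ ℂ) (r : ℂ) : ip f (r • g) = r * ip f g :=
  core_smul_right (fischer σ) f g r

omit [DecidableEq σ] in
theorem ip_conj (f g : MvPolynomial σ ℂ) : conj (ip g f) = ip f g := (fischer σ).conj_inner_symm f g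

omit [DecidableEq σ] in
theorem ip_zero_left (g : MvPolynomial σ ℂ) : ip 0 g = 0 := by simp [ip]

omit [DecidableEq σ] in
theorem ip_zero_right (g : MvPolynomial σ ℂ) : ip g 0 = 0 := by simp [ip]

omit [DecidableEq σ] in
theorem ip_definite {f : MvPolynomial σ ℂ} (h : ip f f = 0) : f = 0 := (fischer σ).definite f h

omit [DecidableEq σ] in
theorem ip_sub_left (f g h : MvPolynomial σ ℂ) : ip (f - g) h = ip f h - ip g h := by
  have := ip_add_left (f - g) g h
  rw [sub_add_cancel] at this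
  rw [this]; ring

omit [DecidableEq σ] in
theorem ip_sub_right (f g h : MvPolynomial σ ℂ) : ip f (g - h) = ip f g - ip f h :=
  map_sub (ipl (fischer σ) f) g h

omit [DecidableEq σ] in
theorem ip_sum_right {ι : Type*} (s : Finset ι) (f : MvPolynomial σ ℂ)
    (g : ι → MvPolynomial σ ℂ) : ip f (∑ i ∈ s, g i) = ∑ i ∈ s, ip f (g i) :=
  map_sum (ipl (fischer σ) f) g s

omit [DecidableEq σ] in
theorem ip_sum_left {ι : Type*} (s : Finset ι) (f : MvPolynomial σ ℂ)
    (g : ι → MvPolynomial σ ℂ) : ip (∑ i ∈ s, g i) f = ∑ i ∈ s, ip (g i) f := by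
  rw [← ip_conj, ip_sum_right, map_sum]
  simp only [ip_conj]

omit [DecidableEq σ] in
theorem ip_ext {f g : MvPolynomial σ ℂ} (h : ∀ u, ip u f = ip u g) : f = g := by
  rw [← sub_eq_zero]
  apply ip_definite
  rw [ip_sub_right, h, sub_self]

theorem ip_monomial (α : σ →₀ ℕ) (c : ℂ) (g : MvPolynomial σ ℂ) :
    ip (monomial α c) g = conj c * (fac α : ℂ) * coeff α g := by
  rw [ip_eq _ _ support_monomial_subset]
  simp

theorem ip_X_mul (u : σ) (f g : MvPolynomial σ ℂ) : ip (X u * f) g = ip f (pderiv u g) := by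
  induction f using MvPolynomial.induction_on' with
  | add p q hp hq => rw [mul_add, ip_add_left, ip_add_left, hp, hq]
  | monomial α c =>
    rw [X, monomial_mul, ip_monomial, ip_monomial, coeff_pderiv, add_comm, fac_add_single]
    push_cast
    ring

theorem ip_pderiv (u : σ) (f g : MvPolynomial σ ℂ) : ip (pderiv u f) g = ip f (X u * g) := by
  rw [← ip_conj, ← ip_X_mul, ip_conj]

theorem ip_actL (A : Matrix σ σ ℂ) (f g : MvPolynomial σ ℂ) :
    ip f (actL A g) = ip (actL Aᴴ f) g := by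
  simp only [actL_apply, act, ip_sum_left, ip_sum_right, ip_smul_left, ip_smul_right,
    Matrix.conjTranspose_apply]
  rw [Finset.sum_comm]
  refine Finset.sum_congr rfl fun i _ => Finset.sum_congr rfl fun j _ => ?_
  rw [ip_X_mul, ← ip_pderiv, ← ip_X_mul, ip_X_mul]
  simp

omit [DecidableEq σ] in
theorem ip_hom_ne {G : Type*} [AddCommMonoid G] {w : σ → G} {f g : MvPolynomial σ ℂ} {m n : G}
    (hf : IsWeightedHomogeneous w f m) (hg : IsWeightedHomogeneous w g n) (h : m ≠ n) :
    ip f g = 0 := by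
  refine Finset.sum_eq_zero fun α hα => ?_
  have h1 := hf (mem_support_iff.1 hα)
  rw [hg.coeff_eq_zero α (h1 ▸ h), mul_zero]

omit [Fintype σ] [DecidableEq σ] in
/-- homogeneous operators commute with taking components -/
theorem comp_comm {G : Type*} [AddCommGroup G] {w : σ → G}
    (T : MvPolynomial σ ℂ →ₗ[ℂ] MvPolynomial σ ℂ) (δ : G)
    (hT : ∀ f m, IsWeightedHomogeneous w f m → IsWeightedHomogeneous w (T f) (m + δ))
    (f : MvPolynomial σ ℂ) (m : G) :
    T (weightedHomogeneousComponent w m f) = weightedHomogeneousComponent w (m + δ) (T f) := by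
  classical
  induction f using MvPolynomial.induction_on' with
  | add p q hp hq => simp only [map_add, hp, hq]
  | monomial α c =>
    have h1 := isWeightedHomogeneous_monomial w α c rfl
    have h2 := hT _ _ h1
    rw [weightedHomogeneousComponent_of_mem h1, weightedHomogeneousComponent_of_mem h2]
    by_cases h : m = Finsupp.weight w α
    · simp [h]
    · simp [h]

end Pool.Agent.Work.MP_cdf40b_al
end
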