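import Pool.Agent.Work.MP_cdf40b_al.Fischer

-- merged part: Pool.Agent.Work.MP_cdf40b_al.Count
section
-- merged part: Pool.Agent.Work.MP_cdf40b_al.Sp
section
namespace Pool.Agent.Work.MP_cdf40b_al

open MvPolynomial Sum
open Module (End finrank)
open scoped ComplexConjugate Matrix Kronecker

attribute [local instance 100] LieRing.ofAssociativeRing

theorem mem_sp6 (A : Matrix I I ℂ) : A ∈ sp6 ↔
    (∀ p q, A (inr p) (inr q) = -A (inl q) (inl p)) ∧
    (∀ p q, A (inl p) (inr q) = A (inl q) (inr p)) ∧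
    (∀ p q, A (inr p) (inl q) = A (inr q) (inl p)) := by
  rw [sp6, LieAlgebra.Symplectic.sp, mem_skewAdjointMatricesLieSubalgebra,
    mem_skewAdjointMatricesSubmodule, Matrix.IsSkewAdjoint, Matrix.IsAdjointPair]
  have h1 : ∀ i q, (Aᵀ * Matrix.J (Fin 3) ℂ) i (inl q) = A (inr q) i := by
    intro i q
    simp [Matrix.mul_apply, Matrix.J, Fintype.sum_sum_type, Matrix.one_apply]
  have h2 : ∀ i q, (Aᵀ * Matrix.J (Fin 3) ℂ) i (inr q) = -A (inl q) i := by
    intro i q
    simp [Matrix.mul_apply, Matrix.J, Fintype.sum_sum_type, Matrix.one_apply]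
  have h3 : ∀ p j, (Matrix.J (Fin 3) ℂ * -A) (inl p) j = A (inr p) j := by
    intro p j
    simp [Matrix.mul_apply, Matrix.J, Fintype.sum_sum_type, Matrix.one_apply]
  have h4 : ∀ p j, (Matrix.J (Fin 3) ℂ * -A) (inr p) j = -A (inl p) j := by
    intro p j
    simp [Matrix.mul_apply, Matrix.J, Fintype.sum_sum_type, Matrix.one_apply]
  constructor
  · intro h
    refine ⟨fun p q => ?_, fun p q => ?_, fun p q => ?_⟩
    · have := congrFun (congrFun h (inr q)) (inl p)
      rwa [h1, h4] at this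
    · have := congrFun (congrFun h (inr q)) (inr p)
      rw [h2, h4] at this
      exact neg_injective this
    · have := congrFun (congrFun h (inl q)) (inl p)
      rwa [h1, h3] at this
  · rintro ⟨a, b, c⟩
    ext (p | p) (q | q)
    · rw [h1, h3, c]
    · rw [h2, h3, a]
    · rw [h1, h4, a]
    · rw [h2, h4, b]

theorem ht_inl (p : Fin 3) : ht (inl p) = 3 - (p : ℤ) := rfl
theorem ht_inr (p : Fin 3) : ht (inr p) = (p : ℤ) - 3 := rfl

theorem ht_bd (i : I) : -3 ≤ ht i ∧ ht i ≤ 3 := by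
  rcases i with p | p
  · have := p.2; rw [ht_inl]; omega
  · have := p.2; rw [ht_inr]; omega

/-- the grading element -/
noncomputable def h0 : sp6 := ⟨Matrix.diagonal fun i => (ht i : ℂ), by
  rw [mem_sp6]
  refine ⟨fun p q => ?_, fun p q => ?_, fun p q => ?_⟩
  · by_cases h : p = q
    · subst h; simp [ht_inl, ht_inr]
    · simp [h, Ne.symm h]
  · simp
  · simp⟩

theorem h0_lie (A : sp6) (i j : I) :
    (⁅h0, A⁆ : sp6).1 i j = ((ht i : ℂ) - ht j) * A.1 i j := by
  simp only [LieSubalgebra.coe_bracket, h0, LieRing.of_associative_ring_bracket, Matrix.sub_apply,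
    Matrix.diagonal_mul, Matrix.mul_diagonal]
  ring

/-- keep only the entries whose height difference satisfies `P` -/
noncomputable def mask (P : ℤ → Prop) [DecidablePred P] (A : sp6) : sp6 :=
  ⟨Matrix.of fun i j => if P (ht i - ht j) then A.1 i j else 0, by
    obtain ⟨a, b, c⟩ := (mem_sp6 A.1).1 A.2
    rw [mem_sp6]
    refine ⟨fun p q => ?_, fun p q => ?_, fun p q => ?_⟩
    · have : ht (inr p) - ht (inr q) = ht (inl q) - ht (inl p) := by simp [ht_inl, ht_inr]
      simp only [Matrix.of_apply, this, a]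
      split_ifs <;> simp
    · have : ht (inl p) - ht (inr q) = ht (inl q) - ht (inr p) := by
        simp only [ht_inl, ht_inr]; ring
      simp only [Matrix.of_apply, this, b p q]
    · have : ht (inr p) - ht (inl q) = ht (inr q) - ht (inl p) := by
        simp only [ht_inl, ht_inr]; ring
      simp only [Matrix.of_apply, this, c p q]⟩

theorem mask_apply (P : ℤ → Prop) [DecidablePred P] (A : sp6) (i j : I) :
    (mask P A).1 i j = if P (ht i - ht j) then A.1 i j else 0 := rfl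

theorem borel_dec {S : Set sp6} (hS : ∀ A ∈ S, ∀ (P : ℤ → Prop) [DecidablePred P], mask P A ∈ S)
    (A : sp6) (hA : A ∈ S) :
    ∃ B ∈ S, InBorel B.1 ∧ A - B ∈ Submodule.span ℂ (Neg S h0) := by
  refine ⟨mask (0 ≤ ·) A, hS A hA _, fun i j hij => ?_, ?_⟩
  · rw [mask_apply, if_neg (by omega)]
  · have : A - mask (0 ≤ ·) A = ∑ n ∈ Finset.range 6, mask (· = -((n + 1 : ℕ) : ℤ)) A := by
      apply Subtype.ext
      ext i j
      have h1 := ht_bd i
      have h2 := ht_bd j
      simp only [AddSubgroupClass.coe_sub, Matrix.sub_apply, mask_apply, Finset.sum_range_succ,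
        Finset.sum_range_zero, AddMemClass.coe_add, ZeroMemClass.coe_zero, Matrix.add_apply,
        Matrix.zero_apply]
      have h3 : -6 ≤ ht i - ht j := by omega
      generalize ht i - ht j = d at *
      split_ifs <;> first | omega | simp
    rw [this]
    refine Submodule.sum_mem _ fun n _ => Submodule.subset_span ⟨hS A hA _, n + 1, by omega, ?_⟩
    apply Subtype.ext
    ext i j
    rw [h0_lie]
    simp only [NegMemClass.coe_neg, SetLike.val_smul, Matrix.neg_apply, Matrix.smul_apply,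
      mask_apply, smul_eq_mul]
    split_ifs with h
    · have : ((ht i : ℂ) - ht j) = -((n + 1 : ℕ) : ℂ) := by exact_mod_cast h
      rw [this]; ring
    · simp

theorem neg_entry {S : Set sp6} {f : sp6} (hf : f ∈ Neg S h0) {i j : I} (h : f.1 i j ≠ 0) :
    ht i < ht j := by
  obtain ⟨-, n, hn, h1⟩ := hf
  have h2 := congrFun (congrFun (congrArg Subtype.val h1) i) j
  rw [h0_lie] at h2
  simp only [NegMemClass.coe_neg, SetLike.val_smul, Matrix.neg_apply, Matrix.smul_apply,
    smul_eq_mul] at h2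
  have h3 : ((ht i : ℂ) - ht j) = -n := by
    apply mul_right_cancel₀ h
    rw [h2]; ring
  have h4 : ht i - ht j = -n := by exact_mod_cast h3
  omega

/-- conjugate transpose inside `sp6` -/
def adj (A : sp6) : sp6 := ⟨A.1ᴴ, by
  obtain ⟨a, b, c⟩ := (mem_sp6 A.1).1 A.2
  rw [mem_sp6]
  refine ⟨fun p q => ?_, fun p q => ?_, fun p q => ?_⟩
  · simp [Matrix.conjTranspose_apply, a]
  · simp [Matrix.conjTranspose_apply, c p q]
  · simp [Matrix.conjTranspose_apply, b p q]⟩

theorem adj_apply (A : sp6) (i j : I) : (adj A).1 i j = star (A.1 j i) := rfl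

/-- the subalgebra `sl₂³` as a set -/
def SH : Set sp6 := {A | InH A.1}

theorem SH_lie : ∀ x ∈ SH, ∀ y ∈ SH, ⁅x, y⁆ ∈ SH := by
  have key : ∀ A B : Matrix I I ℂ, InH A → InH B → InH (A * B) := by
    intro A B hA hB i j hij
    rw [Matrix.mul_apply]
    refine Finset.sum_eq_zero fun k _ => ?_
    by_cases h : plane i = plane k
    · rw [hB k j (h ▸ hij), mul_zero]
    · rw [hA i k h, zero_mul]
  intro x hx y hy i j hij
  simp only [LieSubalgebra.coe_bracket, LieRing.of_associative_ring_bracket, Matrix.sub_apply]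
  rw [key _ _ hx hy i j hij, key _ _ hy hx i j hij, sub_zero]

theorem SH_mask : ∀ A ∈ SH, ∀ (P : ℤ → Prop) [DecidablePred P], mask P A ∈ SH := by
  intro A hA P _ i j hij
  rw [mask_apply, hA i j hij, ite_self]

theorem SH_adj : ∀ A ∈ SH, adj A ∈ SH := by
  intro A hA i j hij
  rw [adj_apply, hA j i (Ne.symm hij), star_zero]

theorem h0_mem_SH : h0 ∈ SH := by
  intro i j hij
  have : i ≠ j := fun h => hij (h ▸ rfl)
  simp [h0, Matrix.diagonal_apply_ne _ this]

theorem h0_borel : InBorel h0.1 := by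
  intro i j hij
  have : i ≠ j := fun h => by rw [h] at hij; exact lt_irrefl _ hij
  simp [h0, Matrix.diagonal_apply_ne _ this]

/-- long root vectors -/
noncomputable def Lr (p : Fin 3) : sp6 := ⟨Matrix.single (inl p) (inr p) 1, by
  rw [mem_sp6]
  refine ⟨fun p q => ?_, fun r q => ?_, fun p q => ?_⟩
  · simp
  · simp [Matrix.single_apply, and_comm]
  · simp⟩

/-- short root vectors `ε_p - ε_q` -/
noncomputable def Rr (p q : Fin 3) : sp6 :=
  ⟨Matrix.single (inl p) (inl q) 1 - Matrix.single (inr q) (inr p) 1, by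
  rw [mem_sp6]
  refine ⟨fun p q => ?_, fun r q => ?_, fun p q => ?_⟩
  · simp [Matrix.single_apply, and_comm]
  · simp
  · simp⟩

/-- short root vectors `ε_p + ε_q` -/
noncomputable def Sr (p q : Fin 3) : sp6 :=
  ⟨Matrix.single (inl p) (inr q) 1 + Matrix.single (inl q) (inr p) 1, by
  rw [mem_sp6]
  refine ⟨fun p q => ?_, fun r q => ?_, fun p q => ?_⟩
  · simp
  · simp [Matrix.single_apply, and_comm, add_comm]
  · simp⟩

/-- structure of the Borel subalgebra of `sl₂³` -/
theorem borelH_eq {B : sp6} (hH : B ∈ SH) (hB : InBorel B.1) :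
    B.1 = Matrix.diagonal (fun i => Sum.elim (fun p => B.1 (inl p) (inl p))
      (fun p => -B.1 (inl p) (inl p)) i) + ∑ p, B.1 (inl p) (inr p) • (Lr p).1 := by
  obtain ⟨a, b, c⟩ := (mem_sp6 B.1).1 B.2
  ext (p | p) (q | q)
  · by_cases h : p = q
    · subst h; simp [Lr, Matrix.sum_apply]
    · rw [hH (inl p) (inl q) h]; simp [Lr, Matrix.sum_apply, h]
  · by_cases h : p = q
    · subst h; simp [Lr, Matrix.sum_apply, Matrix.single_apply]
    · rw [hH (inl p) (inr q) h]
      simp only [Lr, Matrix.add_apply, ne_eq, reduceCtorEq, not_false_eq_true,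
        Matrix.diagonal_apply_ne, Matrix.sum_apply, Matrix.smul_apply, Matrix.single_apply,
        inl.injEq, inr.injEq, smul_eq_mul, mul_ite, mul_one, mul_zero, zero_add]
      symm
      refine Finset.sum_eq_zero fun r _ => if_neg ?_
      rintro ⟨rfl, rfl⟩
      exact h rfl
  · by_cases h : p = q
    · subst h
      rw [hB (inr p) (inl p) (by have := p.2; simp only [ht_inl, ht_inr]; omega)]
      simp [Lr, Matrix.sum_apply]
    · rw [hH (inr p) (inl q) h]; simp [Lr, Matrix.sum_apply]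
  · by_cases h : p = q
    · subst h; simp [Lr, Matrix.sum_apply, a]
    · rw [hH (inr p) (inr q) h]; simp [Lr, Matrix.sum_apply, h]

/-- variables of the model -/
abbrev V2 : Type := Fin 2 × I

/-- the diagonal action on two copies -/
noncomputable def bigL : Matrix I I ℂ →ₗ⁅ℂ⁆ Matrix V2 V2 ℂ where
  toFun A := (1 : Matrix (Fin 2) (Fin 2) ℂ) ⊗ₖ A
  map_add' A B := Matrix.kronecker_add _ _ _
  map_smul' c A := Matrix.kronecker_smul _ _ _
  map_lie' {A B} := by
    simp only [LieRing.of_associative_ring_bracket, ← Matrix.mul_kronecker_mul, one_mul]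
    ext u v
    simp [mul_sub]

theorem bigL_apply (A : Matrix I I ℂ) (u v : V2) :
    bigL A u v = if u.1 = v.1 then A u.2 v.2 else 0 := by
  simp [bigL, Matrix.one_apply]

/-- polarisation operators -/
noncomputable def pol (M : Matrix (Fin 2) (Fin 2) ℂ) : Matrix V2 V2 ℂ := M ⊗ₖ (1 : Matrix I I ℂ)

theorem pol_apply (M : Matrix (Fin 2) (Fin 2) ℂ) (u v : V2) :
    pol M u v = if u.2 = v.2 then M u.1 v.1 else 0 := by
  simp [pol, Matrix.one_apply]

theorem big_pol (A : Matrix I I ℂ) (M : Matrix (Fin 2) (Fin 2) ℂ) : ⁅bigL A, pol M⁆ = 0 := by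
  simp [bigL, pol, LieRing.of_associative_ring_bracket, ← Matrix.mul_kronecker_mul]

theorem bigL_adj (A : Matrix I I ℂ) : (bigL A)ᴴ = bigL Aᴴ := by
  ext u v
  simp only [Matrix.conjTranspose_apply, bigL_apply, eq_comm (a := v.1)]
  split_ifs <;> simp

theorem pol_adj (M : Matrix (Fin 2) (Fin 2) ℂ) : (pol M)ᴴ = pol Mᴴ := by
  ext u v
  simp only [Matrix.conjTranspose_apply, pol_apply, eq_comm (a := v.2)]
  split_ifs <;> simp

/-- the model representation -/
noncomputable def rP : sp6 →ₗ⁅ℂ⁆ End ℂ (MvPolynomial V2 ℂ) := (actL.comp bigL).comp sp6.incl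

/-- the symmetric algebra of the natural representation -/
noncomputable def rS : sp6 →ₗ⁅ℂ⁆ End ℂ (MvPolynomial I ℂ) := actL.comp sp6.incl

theorem rP_apply (A : sp6) (f : MvPolynomial V2 ℂ) : rP A f = actL (bigL A.1) f := rfl
theorem rS_apply (A : sp6) (f : MvPolynomial I ℂ) : rS A f = actL A.1 f := rfl

theorem rP_adj (A : sp6) (f g : MvPolynomial V2 ℂ) : ip f (rP A g) = ip (rP (adj A) f) g := by
  rw [rP_apply, ip_actL, bigL_adj]; rfl

theorem rS_adj (A : sp6) (f g : MvPolynomial I ℂ) : ip f (rS A g) = ip (rS (adj A) f) g := by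
  rw [rS_apply, ip_actL]; rfl

end Pool.Agent.Work.MP_cdf40b_al
end

-- merged part: Pool.Agent.Work.MP_cdf40b_al.Pi
section
namespace Pool.Agent.Work.MP_cdf40b_al

open MvPolynomial Sum
open Module (End finrank)
open scoped ComplexConjugate Matrix Kronecker

attribute [local instance 100] LieRing.ofAssociativeRing

theorem weight_sum {σ G : Type*} [Fintype σ] [AddCommMonoid G] (w : σ → G) (α : σ →₀ ℕ) :
    Finsupp.weight w α = ∑ u, α u • w u := by
  rw [Finsupp.weight_apply, Finsupp.sum_fintype]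
  simp

theorem fd_of_bdd {σ : Type} [Fintype σ] (U : Submodule ℂ (MvPolynomial σ ℂ)) (N : ℕ)
    (h : ∀ f ∈ U, ∀ α, coeff α f ≠ 0 → ∑ u, α u ≤ N) : FiniteDimensional ℂ U := by
  apply Submodule.finiteDimensional_of_le (S₂ := restrictTotalDegree σ ℂ N)
  intro f hf
  rw [mem_restrictTotalDegree, totalDegree, Finset.sup_le_iff]
  intro α hα
  rw [Finsupp.sum_fintype _ _ (by simp)]
  exact h f hf α (mem_support_iff.1 hα)

theorem hom_actL0 {σ : Type} [Fintype σ] [DecidableEq σ] {G : Type*} [AddCancelCommMonoid G]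
    {w : σ → G} {A : Matrix σ σ ℂ}
    (hA : ∀ u v, A u v ≠ 0 → w u = w v) {f : MvPolynomial σ ℂ} {m : G}
    (hf : IsWeightedHomogeneous w f m) : IsWeightedHomogeneous w (actL A f) m := by
  intro β hβ
  obtain ⟨u, v, α, h1, h2, h3⟩ := support_actL hβ
  have h4 := congrArg (Finsupp.weight w) h3
  simp only [map_add, Finsupp.weight_single, one_smul] at h4
  rw [hf h2, hA u v h1] at h4
  exact add_right_cancel h4

theorem plane_inl (p : Fin 3) : plane (inl p) = p := rfl
theorem plane_inr (p : Fin 3) : plane (inr p) = p := rfl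

theorem mem_piMod {x : Fin 3 → ℕ} {f : MvPolynomial I ℂ} :
    f ∈ piMod x ↔ ∀ α, coeff α f ≠ 0 → ∀ p, α (inl p) + α (inr p) = x p := by
  have : ∀ α : I →₀ ℕ, Finsupp.weight (fun i : I => (Pi.single (plane i) 1 : Fin 3 → ℕ)) α =
      fun p => α (inl p) + α (inr p) := by
    intro α
    funext p
    rw [weight_sum, Fintype.sum_sum_type]
    simp only [plane_inl, plane_inr]
    simp [Finset.sum_apply, Pi.single_apply]
  simp only [piMod, mem_weightedHomogeneousSubmodule, IsWeightedHomogeneous, this,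
    _root_.funext_iff]

theorem piMod_inv (x : Fin 3 → ℕ) : Inv rS SH (piMod x) := by
  intro A hA f hf
  refine hom_actL0 (fun u v h => ?_) hf
  by_contra hc
  exact h (hA u v fun h2 => hc (by rw [h2]))

instance piMod_fd (x : Fin 3 → ℕ) : FiniteDimensional ℂ (piMod x) := by
  apply fd_of_bdd _ (∑ p, x p)
  intro f hf α hα
  rw [Fintype.sum_sum_type, ← Finset.sum_add_distrib]
  exact le_of_eq (Finset.sum_congr rfl fun p _ => mem_piMod.1 hf α hα p)

/-- the highest weight of `piMod x` -/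
noncomputable def chi (x : Fin 3 → ℕ) (B : sp6) : ℂ := ∑ p, (x p : ℂ) * B.1 (inl p) (inl p)

/-- exponent of the highest weight vector -/
noncomputable def aPi (x : Fin 3 → ℕ) : I →₀ ℕ := Finsupp.equivFunOnFinite.symm (Sum.elim x 0)

/-- highest weight vector of `piMod x` -/
noncomputable def wPi (x : Fin 3 → ℕ) : MvPolynomial I ℂ := monomial (aPi x) 1

theorem wPi_mem (x : Fin 3 → ℕ) : wPi x ∈ piMod x := by
  classical
  rw [mem_piMod]
  intro α hα p
  rw [wPi, coeff_monomial] at hα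
  split_ifs at hα with h
  · subst h; simp [aPi]
  · exact absurd rfl hα

theorem wPi_ne (x : Fin 3 → ℕ) : wPi x ≠ 0 := by simp [wPi]

theorem Lr_wPi (x : Fin 3 → ℕ) (p : Fin 3) : rS (Lr p) (wPi x) = 0 := by
  classical
  ext β
  by_contra h
  rw [rS_apply] at h
  obtain ⟨u, v, α, h1, h2, h3⟩ := support_actL h
  rw [wPi, coeff_monomial] at h2
  split_ifs at h2 with h4
  · subst h4
    simp only [Lr, Matrix.single_apply, ne_eq, ite_eq_right_iff,
      one_ne_zero, imp_false, not_not] at h1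
    obtain ⟨rfl, rfl⟩ := h1
    have := congrArg (fun a => a (inr p)) h3
    simp [aPi] at this
  · exact absurd rfl h2

theorem borel_wPi (x : Fin 3 → ℕ) {B : sp6} (hH : B ∈ SH) (hB : InBorel B.1) :
    rS B (wPi x) = chi x B • wPi x := by
  classical
  rw [rS_apply, borelH_eq hH hB, map_add, map_sum, LinearMap.add_apply, LinearMap.sum_apply]
  have : ∀ p, actL (B.1 (inl p) (inr p) • (Lr p).1) (wPi x) = 0 := by
    intro p
    rw [map_smul, LinearMap.smul_apply, ← rS_apply, Lr_wPi, smul_zero]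
  simp only [this, Finset.sum_const_zero, add_zero]
  apply actL_diag
  intro α hα
  rw [wPi, coeff_monomial] at hα
  split_ifs at hα with h
  · subst h
    simp [aPi, chi, Fintype.sum_sum_type, mul_comm]
  · exact absurd rfl hα

theorem Lr_mem_SH (p : Fin 3) : Lr p ∈ SH := by
  intro i j hij
  simp only [Lr, Matrix.single_apply, ite_eq_right_iff, one_ne_zero, imp_false]
  rintro ⟨rfl, rfl⟩
  exact hij rfl

theorem piMod_min (x : Fin 3 → ℕ) : MinInv rS SH (piMod x) := by
  classical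
  apply minInv_of_socle (fischer I) (fun A hA => ⟨adj A, SH_adj A hA, rS_adj A⟩) (piMod_inv x)
    (wPi_ne x)
  intro U hU hinv hU0
  obtain ⟨f, hf, hf0, hL⟩ := exists_prim ht (Set.range fun p => (Lr p).1) (by
      rintro _ ⟨p, rfl⟩ u v h
      simp only [Lr, Matrix.single_apply, ne_eq, ite_eq_right_iff,
        one_ne_zero, imp_false, not_not] at h
      obtain ⟨rfl, rfl⟩ := h
      have := p.2
      simp only [ht_inl, ht_inr]; omega) U (by
      rintro _ ⟨p, rfl⟩ f hf
      exact hinv _ (Lr_mem_SH p) f hf) hU0 (3 * ∑ p, x p) (by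
      intro f hf α hα
      have h1 := mem_piMod.1 (hU hf) α hα
      rw [weight_sum, Fintype.sum_sum_type]
      simp only [← h1, Fin.sum_univ_three, ht_inl, ht_inr, nsmul_eq_mul]
      push_cast
      simp only [Fin.val_zero, Fin.val_one, Fin.val_two]
      omega)
  have key : f - coeff (aPi x) f • wPi x = 0 := by
    apply slice' (fun i : I => i.isRight = true)
    · rintro (p | p) hp
      · simp at hp
      · refine ⟨(Lr p).1, inl p, by simp, by simp [Lr], ?_, ?_⟩
        · intro u v _ _ h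
          simp only [Lr, Matrix.single_apply, ne_eq, ite_eq_right_iff,
            one_ne_zero, imp_false, not_not] at h
          exact ⟨h.1.symm, h.2.symm⟩
        · rw [map_sub, map_smul, hL _ ⟨p, rfl⟩, ← rS_apply, Lr_wPi]; simp
    · ext α
      rw [coeff_kill, coeff_zero]
      split_ifs with h
      · rw [coeff_sub, coeff_smul, wPi, coeff_monomial]
        split_ifs with h2
        · subst h2; simp
        · simp only [smul_zero, sub_zero]
          by_contra h3
          apply h2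
          have h1 := mem_piMod.1 (hU hf) α h3
          ext (p | p)
          · have := h (inr p) rfl
            have := h1 p
            simp [aPi]; omega
          · have := h (inr p) rfl
            simp [aPi, this]
      · rfl
  have h1 : f = coeff (aPi x) f • wPi x := sub_eq_zero.1 key
  have h2 : coeff (aPi x) f ≠ 0 := fun h => hf0 (by rw [h1, h, zero_smul])
  have h3 : wPi x = (coeff (aPi x) f)⁻¹ • f := by
    conv_rhs => rw [h1]
    rw [smul_smul]
    conv_rhs => rw [← h1]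
    rw [inv_mul_cancel₀ h2, one_smul]
  rw [h3]
  exact U.smul_mem _ hf

end Pool.Agent.Work.MP_cdf40b_al
end

-- merged part: Pool.Agent.Work.MP_cdf40b_al.Model
section
namespace Pool.Agent.Work.MP_cdf40b_al

open MvPolynomial Sum
open Module (End finrank)
open scoped ComplexConjugate Matrix Kronecker

attribute [local instance 100] LieRing.ofAssociativeRing

/-- the polynomial ring of the model -/
abbrev P2 : Type := MvPolynomial V2 ℂ

noncomputable def xx (i : I) : P2 := X (0, i)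
noncomputable def yy (i : I) : P2 := X (1, i)

noncomputable def Em : Matrix V2 V2 ℂ := pol (Matrix.single 0 1 1)
noncomputable def Fm : Matrix V2 V2 ℂ := pol (Matrix.single 1 0 1)

noncomputable def qq : P2 := ∑ p, (xx (inl p) * yy (inr p) - xx (inr p) * yy (inl p))

noncomputable def Dop : P2 →ₗ[ℂ] P2 :=
  ∑ p : Fin 3, ((pderiv ((1 : Fin 2), (inr p : I))).toLinearMap ∘ₗ
      (pderiv ((0 : Fin 2), (inl p : I))).toLinearMap -
    (pderiv ((1 : Fin 2), (inl p : I))).toLinearMap ∘ₗ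
      (pderiv ((0 : Fin 2), (inr p : I))).toLinearMap)

theorem Dop_apply (f : P2) : Dop f = ∑ p : Fin 3,
    (pderiv ((1 : Fin 2), (inr p : I)) (pderiv ((0 : Fin 2), (inl p : I)) f) -
      pderiv ((1 : Fin 2), (inl p : I)) (pderiv ((0 : Fin 2), (inr p : I)) f)) := by
  simp [Dop, LinearMap.sum_apply]

theorem ip_Dop (f g : P2) : ip (Dop f) g = ip f (qq * g) := by
  simp only [Dop_apply, qq, Finset.sum_mul, ip_sum_left, ip_sum_right, sub_mul, ip_sub_left,
    ip_sub_right, ip_pderiv, xx, yy, mul_assoc]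

theorem Dop_comm {M : Matrix V2 V2 ℂ} (h : actL Mᴴ qq = 0) (f : P2) :
    Dop (actL M f) = actL M (Dop f) := by
  apply ip_ext
  intro g
  rw [← ip_conj, ip_Dop, ip_actL, ← ip_conj (actL Mᴴ g), ip_Dop, ← ip_conj (actL M f), ip_actL,
    ip_conj, actL_mul, h, zero_mul, add_zero, ip_conj]

theorem Em_adj : Emᴴ = Fm := by simp [Em, Fm, pol_adj]
theorem Fm_adj : Fmᴴ = Em := by simp [Em, Fm, pol_adj]

theorem big_xx (A : Matrix I I ℂ) (j : I) : actL (bigL A) (xx j) = ∑ i, A i j • xx i := by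
  simp [xx, actL_X, Fintype.sum_prod_type, bigL_apply]

theorem big_yy (A : Matrix I I ℂ) (j : I) : actL (bigL A) (yy j) = ∑ i, A i j • yy i := by
  simp [yy, actL_X, Fintype.sum_prod_type, bigL_apply]

theorem Em_xx (j : I) : actL Em (xx j) = 0 := by
  simp [xx, Em, actL_X, pol_apply]

theorem Em_yy (j : I) : actL Em (yy j) = xx j := by
  simp [xx, yy, Em, actL_X, Fintype.sum_prod_type, pol_apply]

theorem Fm_xx (j : I) : actL Fm (xx j) = yy j := by
  simp [xx, yy, Fm, actL_X, Fintype.sum_prod_type, pol_apply]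

theorem Fm_yy (j : I) : actL Fm (yy j) = 0 := by
  simp [yy, Fm, actL_X, pol_apply]

theorem Em_qq : actL Em qq = 0 := by
  simp only [qq, map_sum, map_sub, actL_mul, Em_xx, Em_yy]
  refine Finset.sum_eq_zero fun p _ => ?_
  ring

theorem Fm_qq : actL Fm qq = 0 := by
  simp only [qq, map_sum, map_sub, actL_mul, Fm_xx, Fm_yy]
  refine Finset.sum_eq_zero fun p _ => ?_
  ring

theorem rP_qq (A : sp6) : rP A qq = 0 := by
  obtain ⟨a, b, c⟩ := (mem_sp6 A.1).1 A.2
  simp only [rP_apply, qq, map_sum, map_sub, actL_mul, big_xx, big_yy]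
  simp only [Fintype.sum_sum_type, Fin.sum_univ_three, a, smul_eq_C_mul, map_neg]
  rw [b 1 0, b 2 0, b 2 1, c 1 0, c 2 0, c 2 1]
  ring

theorem Dop_rP (A : sp6) (f : P2) : Dop (rP A f) = rP A (Dop f) := by
  rw [rP_apply, rP_apply]
  apply Dop_comm
  rw [bigL_adj]
  exact rP_qq (adj A)

theorem Dop_Em (f : P2) : Dop (actL Em f) = actL Em (Dop f) := Dop_comm (Em_adj ▸ Fm_qq) f

theorem Em_rP (A : sp6) (f : P2) : actL Em (rP A f) = rP A (actL Em f) :=
  (actL_comm (big_pol _ _) f).symm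

theorem Fm_rP (A : sp6) (f : P2) : actL Fm (rP A f) = rP A (actL Fm f) :=
  (actL_comm (big_pol _ _) f).symm

/-- bidegree -/
def wD (u : V2) : ℤ × ℤ := if u.1 = 0 then (1, 0) else (0, 1)

/-- weight for `sl₂³` -/
def wH (u : V2) : Fin 3 → ℤ := Pi.single (plane u.2) (if u.2.isLeft then 1 else -1)

noncomputable def PD (m n : ℤ) : Submodule ℂ P2 := weightedHomogeneousSubmodule ℂ wD (m, n)
noncomputable def PH (r : Fin 3 → ℤ) : Submodule ℂ P2 := weightedHomogeneousSubmodule ℂ wH r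

theorem weight_wD (α : V2 →₀ ℕ) :
    Finsupp.weight wD α = (∑ i, (α (0, i) : ℤ), ∑ i, (α (1, i) : ℤ)) := by
  rw [weight_sum, Fintype.sum_prod_type, Fin.sum_univ_two]
  ext <;> simp [wD, Prod.fst_sum, Prod.snd_sum]

theorem weight_wH (α : V2 →₀ ℕ) (p : Fin 3) :
    Finsupp.weight wH α p =
      (α (0, inl p) : ℤ) + α (1, inl p) - α (0, inr p) - α (1, inr p) := by
  rw [weight_sum, Fintype.sum_prod_type, Fin.sum_univ_two, Fintype.sum_sum_type,
    Fintype.sum_sum_type]
  simp only [wH, plane_inl, plane_inr]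
  simp [Finset.sum_apply, Pi.single_apply]
  ring

theorem mem_PD {m n : ℤ} {f : P2} : f ∈ PD m n ↔
    ∀ α, coeff α f ≠ 0 → ∑ i, (α (0, i) : ℤ) = m ∧ ∑ i, (α (1, i) : ℤ) = n := by
  simp only [PD, mem_weightedHomogeneousSubmodule, IsWeightedHomogeneous, weight_wD, Prod.mk.injEq]

theorem mem_PH {r : Fin 3 → ℤ} {f : P2} : f ∈ PH r ↔ ∀ α, coeff α f ≠ 0 → ∀ p,
    (α (0, inl p) : ℤ) + α (1, inl p) - α (0, inr p) - α (1, inr p) = r p := by
  simp only [PH, mem_weightedHomogeneousSubmodule, IsWeightedHomogeneous, _root_.funext_iff,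
    weight_wH]

instance PD_fd (m n : ℤ) : FiniteDimensional ℂ (PD m n) := by
  apply fd_of_bdd _ (m + n).toNat
  intro f hf α hα
  obtain ⟨h1, h2⟩ := mem_PD.1 hf α hα
  rw [Fintype.sum_prod_type, Fin.sum_univ_two, ← h1, ← h2]
  rw [← Nat.cast_sum, ← Nat.cast_sum]
  omega

theorem PD_rP (A : sp6) {m n : ℤ} {f : P2} (hf : f ∈ PD m n) : rP A f ∈ PD m n := by
  rw [rP_apply]
  refine hom_actL0 (fun u v h => ?_) hf
  rw [bigL_apply] at h
  split_ifs at h with h1
  · simp [wD, h1]
  · exact absurd rfl h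

theorem wD_Em (u v : V2) (h : Em u v ≠ 0) : wD u = (1, -1) + wD v := by
  simp only [Em, pol_apply, Matrix.single_apply, ne_eq, ite_eq_right_iff, one_ne_zero, imp_false,
    not_forall, not_not] at h
  obtain ⟨-, h1, h2⟩ := h
  simp [wD, ← h1, ← h2]

theorem wD_Fm (u v : V2) (h : Fm u v ≠ 0) : wD u = (-1, 1) + wD v := by
  simp only [Fm, pol_apply, Matrix.single_apply, ne_eq, ite_eq_right_iff, one_ne_zero, imp_false,
    not_forall, not_not] at h
  obtain ⟨-, h1, h2⟩ := h
  simp [wD, ← h1, ← h2]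

theorem wH_pol (M : Matrix (Fin 2) (Fin 2) ℂ) (u v : V2) (h : pol M u v ≠ 0) : wH u = wH v := by
  rw [pol_apply] at h
  split_ifs at h with h1
  · simp [wH, h1]
  · exact absurd rfl h

theorem PD_Em {m n : ℤ} {f : P2} (hf : f ∈ PD m n) : actL Em f ∈ PD (m + 1) (n - 1) :=
  hom_actL wD_Em hf

theorem PD_Fm {m n : ℤ} {f : P2} (hf : f ∈ PD (m + 1) (n - 1)) : actL Fm f ∈ PD m n := by
  have := hom_actL wD_Fm hf
  simp only [Prod.mk_add_mk, add_neg_cancel_right, sub_add_cancel] at this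
  exact this

theorem xx_PD (i : I) : IsWeightedHomogeneous wD (xx i) (1, 0) := isWeightedHomogeneous_X _ _ _
theorem yy_PD (i : I) : IsWeightedHomogeneous wD (yy i) (0, 1) := isWeightedHomogeneous_X _ _ _

theorem qq_PD : IsWeightedHomogeneous wD qq (1, 1) := by
  apply IsWeightedHomogeneous.sum
  intro p _
  exact ((xx_PD _).mul (yy_PD _)).sub ((xx_PD _).mul (yy_PD _))

theorem qq_PH : IsWeightedHomogeneous wH qq 0 := by
  apply IsWeightedHomogeneous.sum
  intro p _
  have h1 := (isWeightedHomogeneous_X ℂ wH (0, inl p)).mul (isWeightedHomogeneous_X ℂ wH (1, inr p))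
  have h2 := (isWeightedHomogeneous_X ℂ wH (0, inr p)).mul (isWeightedHomogeneous_X ℂ wH (1, inl p))
  have e1 : wH (0, inl p) + wH (1, inr p) = 0 := by
    simp [wH, plane_inl, plane_inr, ← Pi.single_add]
  have e2 : wH (0, inr p) + wH (1, inl p) = 0 := by
    simp [wH, plane_inl, plane_inr, ← Pi.single_add]
  rw [e1] at h1
  rw [e2] at h2
  exact h1.sub h2

theorem Dop_hom {G : Type*} [AddCommGroup G] (w : V2 → G) (δ : G)
    (h1 : ∀ p, w (0, inl p) + w (1, inr p) = δ) (h2 : ∀ p, w (0, inr p) + w (1, inl p) = δ)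
    {f : P2} {m : G} (hf : IsWeightedHomogeneous w f m) :
    IsWeightedHomogeneous w (Dop f) (m + -δ) := by
  rw [Dop_apply]
  apply IsWeightedHomogeneous.sum
  intro p _
  apply IsWeightedHomogeneous.sub
  · refine (hf.pderiv (n' := m - w (0, inl p)) (by abel)).pderiv ?_
    rw [← h1 p]; abel
  · refine (hf.pderiv (n' := m - w (0, inr p)) (by abel)).pderiv ?_
    rw [← h2 p]; abel

theorem PD_Dop {m n : ℤ} {f : P2} (hf : f ∈ PD m n) : Dop f ∈ PD (m - 1) (n - 1) :=
  Dop_hom wD (1, 1) (fun _ => rfl) (fun _ => rfl) hf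

theorem PH_Dop {f : P2} {r : Fin 3 → ℤ} (hf : IsWeightedHomogeneous wH f r) :
    IsWeightedHomogeneous wH (Dop f) (r + 0) := by
  have := Dop_hom wH 0 (fun p => by simp [wH, plane_inl, plane_inr, ← Pi.single_add])
    (fun p => by simp [wH, plane_inl, plane_inr, ← Pi.single_add]) hf
  simpa using this

/-- the model of the irreducible module -/
noncomputable def Vm (a b : ℕ) : Submodule ℂ P2 :=
  PD (a + b) b ⊓ LinearMap.ker (actL Em) ⊓ LinearMap.ker Dop

instance Vm_fd (a b : ℕ) : FiniteDimensional ℂ (Vm a b) :=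
  Submodule.finiteDimensional_of_le (S₂ := PD (a + b) b) (inf_le_left.trans inf_le_left)

theorem Vm_inv (a b : ℕ) : Inv rP Set.univ (Vm a b) := by
  rintro A - f ⟨⟨h1, h2⟩, h3⟩
  refine ⟨⟨PD_rP A h1, ?_⟩, ?_⟩
  · change actL Em (rP A f) = 0
    rw [Em_rP, show actL Em f = 0 from h2, map_zero]
  · change Dop (rP A f) = 0
    rw [Dop_rP, show Dop f = 0 from h3, map_zero]

noncomputable def mm : P2 := xx (inl 0) * yy (inl 1) - xx (inl 1) * yy (inl 0)

noncomputable def gk (a b k : ℕ) : P2 := xx (inl 0) ^ a * mm ^ (b - k) * qq ^ k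

theorem borel_col0 {B : Matrix I I ℂ} (hB : InBorel B) (g : I → P2) :
    ∑ i, B i (inl 0) • g i = B (inl 0) (inl 0) • g (inl 0) := by
  rw [Finset.sum_eq_single (inl 0)]
  · intro i _ hi
    rw [hB i (inl 0), zero_smul]
    revert i; decide
  · simp

theorem borel_col1 {B : Matrix I I ℂ} (hB : InBorel B) (g : I → P2) :
    ∑ i, B i (inl 1) • g i = B (inl 0) (inl 1) • g (inl 0) + B (inl 1) (inl 1) • g (inl 1) := by
  rw [Fintype.sum_sum_type, Fin.sum_univ_three, Fin.sum_univ_three, hB (inl 2) _ (by decide),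
    hB (inr 0) _ (by decide), hB (inr 1) _ (by decide), hB (inr 2) _ (by decide)]
  simp

theorem borel_mm {B : sp6} (hB : InBorel B.1) :
    rP B mm = (B.1 (inl 0) (inl 0) + B.1 (inl 1) (inl 1)) • mm := by
  simp only [rP_apply, mm, map_sub, actL_mul, big_xx, big_yy, borel_col0 hB, borel_col1 hB]
  simp only [smul_eq_C_mul, map_add]
  ring

theorem borel_gk (a b k : ℕ) {B : sp6} (hB : InBorel B.1) :
    rP B (gk a b k) = (((a + (b - k : ℕ)) : ℂ) * B.1 (inl 0) (inl 0) +
      (b - k : ℕ) * B.1 (inl 1) (inl 1)) • gk a b k := by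
  have h1 : actL (bigL B.1) (xx (inl 0)) = B.1 (inl 0) (inl 0) • xx (inl 0) := by
    rw [big_xx, borel_col0 hB]
  have h2 : actL (bigL B.1) qq = (0 : ℂ) • qq := by rw [zero_smul]; exact rP_qq B
  have := actL_mul_eig _ (actL_mul_eig _ (actL_pow_eig _ h1 a)
    (actL_pow_eig _ (borel_mm hB) (b - k))) (actL_pow_eig _ h2 k)
  rw [rP_apply, gk, this]
  congr 1
  ring

theorem Em_gk (a b k : ℕ) : actL Em (gk a b k) = 0 := by
  have h1 : actL Em (xx (inl 0)) = (0 : ℂ) • xx (inl 0) := by rw [zero_smul, Em_xx]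
  have h2 : actL Em qq = (0 : ℂ) • qq := by rw [zero_smul, Em_qq]
  have h3 : actL Em mm = (0 : ℂ) • mm := by
    simp only [mm, map_sub, actL_mul, Em_xx, Em_yy, zero_smul]; ring
  have := actL_mul_eig _ (actL_mul_eig _ (actL_pow_eig _ h1 a)
    (actL_pow_eig _ h3 (b - k))) (actL_pow_eig _ h2 k)
  rw [gk, this]
  simp

theorem Dop_g0 (a b : ℕ) : Dop (gk a b 0) = 0 := by
  have h : ∀ (k : Fin 2) (p : Fin 3), pderiv (k, (inr p : I)) (gk a b 0) = 0 := by
    intro k p
    have h1 : ∀ (l : Fin 2) (q : Fin 3), pderiv (k, (inr p : I)) (X (l, (inl q : I)) : P2) = 0 :=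
      fun l q => pderiv_X_of_ne (by simp)
    simp [gk, mm, xx, yy, Derivation.leibniz_pow, h1]
  rw [Dop_apply]
  refine Finset.sum_eq_zero fun p _ => ?_
  rw [h, map_zero, sub_zero]
  have := h 1 p
  have h2 : ∀ f : P2, pderiv ((1 : Fin 2), (inr p : I)) (pderiv ((0 : Fin 2), (inl p : I)) f) =
      pderiv ((0 : Fin 2), (inl p : I)) (pderiv ((1 : Fin 2), (inr p : I)) f) := by
    intro f
    ext α
    simp only [coeff_pderiv, Finsupp.coe_add, Pi.add_apply]
    rw [Finsupp.single_eq_of_ne (by simp), Finsupp.single_eq_of_ne (by simp), add_right_comm]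
    push_cast
    ring
  rw [h2, this, map_zero]

theorem gk_PD (a b k : ℕ) (hk : k ≤ b) : gk a b k ∈ PD (a + b) b := by
  have h1 : IsWeightedHomogeneous wD mm (1, 1) :=
    ((xx_PD _).mul (yy_PD _)).sub ((xx_PD _).mul (yy_PD _))
  have := (((xx_PD (inl 0)).pow a).mul (h1.pow (b - k))).mul (qq_PD.pow k)
  have e : a • ((1 : ℤ), (0 : ℤ)) + (b - k) • ((1 : ℤ), (1 : ℤ)) + k • ((1 : ℤ), (1 : ℤ)) =
      (((a + b : ℤ)), (b : ℤ)) := by
    ext <;> simp <;> omega
  rw [e] at this
  exact this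

theorem g0_mem (a b : ℕ) : gk a b 0 ∈ Vm a b :=
  ⟨⟨gk_PD a b 0 (Nat.zero_le _), Em_gk a b 0⟩, Dop_g0 a b⟩

/-- the variables killed on the slice -/
def Zg (u : V2) : Prop := u ≠ (0, inl 0) ∧ u ≠ (1, inl 1) ∧ u ≠ (1, inr 0)

instance : DecidablePred Zg := fun u => by unfold Zg; infer_instance

noncomputable def ak (a b k : ℕ) : V2 →₀ ℕ :=
  Finsupp.single (0, inl 0) (a + b) + Finsupp.single (1, inl 1) (b - k) +
    Finsupp.single (1, inr 0) k

theorem kill_gk (a b k : ℕ) (hk : k ≤ b) : kill Zg (gk a b k) = monomial (ak a b k) 1 := by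
  have h1 : kill Zg (xx (inl 0)) = X (0, inl 0) := by rw [xx, kill_X, if_neg (by decide)]
  have h2 : kill Zg mm = X (0, inl 0) * X (1, inl 1) := by
    simp only [mm, map_sub, map_mul, xx, yy, kill_X]
    rw [if_neg (by decide), if_neg (by decide), if_pos (by decide)]; simp
  have h3 : kill Zg qq = X (0, inl 0) * X (1, inr 0) := by
    simp only [qq, map_add, map_sub, map_mul, xx, yy, kill_X, Fin.sum_univ_three]
    rw [if_neg (by decide), if_neg (by decide), if_pos (by decide), if_pos (by decide),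
      if_pos (by decide), if_pos (by decide), if_pos (by decide), if_neg (by decide),
      if_pos (by decide), if_pos (by decide), if_pos (by decide), if_pos (by decide)]
    simp
  rw [gk, map_mul, map_mul, map_pow, map_pow, map_pow, h1, h2, h3]
  simp only [mul_pow, X_pow_eq_monomial, monomial_mul, mul_one, ak]
  congr 2
  ext u
  simp only [Finsupp.coe_add, Pi.add_apply, Finsupp.single_apply]
  split_ifs <;> omega

theorem g0_ne (a b : ℕ) : gk a b 0 ≠ 0 := by
  intro h
  have := kill_gk a b 0 (Nat.zero_le _)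
  rw [h, map_zero] at this
  exact absurd this.symm (by simp)

end Pool.Agent.Work.MP_cdf40b_al
end

-- merged part: Pool.Agent.Work.MP_cdf40b_al.Socle
section
namespace Pool.Agent.Work.MP_cdf40b_al

open MvPolynomial Sum
open Module (End finrank)
open scoped ComplexConjugate Matrix Kronecker

attribute [local instance 100] LieRing.ofAssociativeRing

theorem Lr_ne {p : Fin 3} {i j : I} (h : (Lr p).1 i j ≠ 0) : i = inl p ∧ j = inr p := by
  simp only [Lr, Matrix.single_apply, ne_eq, ite_eq_right_iff, one_ne_zero, imp_false,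
    not_not] at h
  exact ⟨h.1.symm, h.2.symm⟩

theorem Rr_ne {p q : Fin 3} {i j : I} (h : (Rr p q).1 i j ≠ 0) :
    (i = inl p ∧ j = inl q) ∨ (i = inr q ∧ j = inr p) := by
  by_contra hc
  apply h
  simp only [Rr, Matrix.sub_apply, Matrix.single_apply]
  rw [if_neg, if_neg, sub_zero]
  · rintro ⟨rfl, rfl⟩; simp at hc
  · rintro ⟨rfl, rfl⟩; simp at hc

theorem Sr_ne {p q : Fin 3} {i j : I} (h : (Sr p q).1 i j ≠ 0) :
    (i = inl p ∧ j = inr q) ∨ (i = inl q ∧ j = inr p) := by
  by_contra hc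
  apply h
  simp only [Sr, Matrix.add_apply, Matrix.single_apply]
  rw [if_neg, if_neg, add_zero]
  · rintro ⟨rfl, rfl⟩; simp at hc
  · rintro ⟨rfl, rfl⟩; simp at hc

theorem big_ne {A : Matrix I I ℂ} {u v : V2} (h : bigL A u v ≠ 0) : u.1 = v.1 ∧ A u.2 v.2 ≠ 0 := by
  rw [bigL_apply] at h
  split_ifs at h with h1
  · exact ⟨h1, h⟩
  · exact absurd rfl h

theorem Em_ne {u v : V2} (h : Em u v ≠ 0) : u.2 = v.2 ∧ u.1 = 0 ∧ v.1 = 1 := by
  simp only [Em, pol_apply, Matrix.single_apply, ne_eq, ite_eq_right_iff, one_ne_zero, imp_false,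
    not_forall, not_not] at h
  obtain ⟨h0, h1, h2⟩ := h
  exact ⟨h0, h1.symm, h2.symm⟩

/-- strictly upper triangular -/
def Strict (B : sp6) : Prop := ∀ i j, B.1 i j ≠ 0 → ht j < ht i

theorem strict_Lr (p : Fin 3) : Strict (Lr p) := by
  intro i j h
  obtain ⟨rfl, rfl⟩ := Lr_ne h
  simp only [ht_inl, ht_inr]; omega

theorem strict_Rr {p q : Fin 3} (hpq : p < q) : Strict (Rr p q) := by
  intro i j h
  rcases Rr_ne h with ⟨rfl, rfl⟩ | ⟨rfl, rfl⟩ <;> simp only [ht_inl, ht_inr] <;> omega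

theorem strict_Sr (p q : Fin 3) : Strict (Sr p q) := by
  intro i j h
  rcases Sr_ne h with ⟨rfl, rfl⟩ | ⟨rfl, rfl⟩ <;> simp only [ht_inl, ht_inr] <;> omega

theorem slice_g {f : P2} (h1 : ∀ B, Strict B → rP B f = 0) (h2 : actL Em f = 0)
    (h3 : kill Zg f = 0) : f = 0 := by
  refine slice' Zg ?_ h3
  have hR : ∀ p q : Fin 3, p < q → ∀ k : Fin 2, ¬ Zg (k, inl p) →
      (∀ u v : V2, ¬ Zg u → Zg v → u.1 = v.1 →
        (u.2 = inl p ∧ v.2 = inl q) ∨ (u.2 = inr q ∧ v.2 = inr p) →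
          u = (k, inl p) ∧ v = (k, inl q)) →
      ∃ (A : Matrix V2 V2 ℂ) (u₀ : V2), ¬ Zg u₀ ∧ A u₀ (k, inl q) ≠ 0 ∧
      (∀ u v, ¬ Zg u → Zg v → A u v ≠ 0 → u = u₀ ∧ v = (k, inl q)) ∧ actL A f = 0 := by
    intro p q hpq k hk h
    refine ⟨bigL (Rr p q).1, (k, inl p), hk, by simp [bigL_apply, Rr], ?_,
      by rw [← rP_apply]; exact h1 _ (strict_Rr hpq)⟩
    intro u v hu hv hA
    exact h u v hu hv (big_ne hA).1 (Rr_ne (big_ne hA).2)
  have hS : ∀ p q : Fin 3, p ≠ q → ∀ k : Fin 2, ¬ Zg (k, inl p) →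
      (∀ u v : V2, ¬ Zg u → Zg v → u.1 = v.1 →
        (u.2 = inl p ∧ v.2 = inr q) ∨ (u.2 = inl q ∧ v.2 = inr p) →
          u = (k, inl p) ∧ v = (k, inr q)) →
      ∃ (A : Matrix V2 V2 ℂ) (u₀ : V2), ¬ Zg u₀ ∧ A u₀ (k, inr q) ≠ 0 ∧
      (∀ u v, ¬ Zg u → Zg v → A u v ≠ 0 → u = u₀ ∧ v = (k, inr q)) ∧ actL A f = 0 := by
    intro p q hpq k hk h
    refine ⟨bigL (Sr p q).1, (k, inl p), hk, by simp [bigL_apply, Sr, hpq], ?_,
      by rw [← rP_apply]; exact h1 _ (strict_Sr p q)⟩
    intro u v hu hv hA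
    exact h u v hu hv (big_ne hA).1 (Sr_ne (big_ne hA).2)
  have hL : ∀ p : Fin 3, ∀ k : Fin 2, ¬ Zg (k, inl p) →
      (∀ u v : V2, ¬ Zg u → Zg v → u.1 = v.1 → (u.2 = inl p ∧ v.2 = inr p) →
          u = (k, inl p) ∧ v = (k, inr p)) →
      ∃ (A : Matrix V2 V2 ℂ) (u₀ : V2), ¬ Zg u₀ ∧ A u₀ (k, inr p) ≠ 0 ∧
      (∀ u v, ¬ Zg u → Zg v → A u v ≠ 0 → u = u₀ ∧ v = (k, inr p)) ∧ actL A f = 0 := by
    intro p k hk h
    refine ⟨bigL (Lr p).1, (k, inl p), hk, by simp [bigL_apply, Lr], ?_,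
      by rw [← rP_apply]; exact h1 _ (strict_Lr p)⟩
    intro u v hu hv hA
    exact h u v hu hv (big_ne hA).1 (Lr_ne (big_ne hA).2)
  have hall : ∀ z : V2, Zg z → z = (0, inl 1) ∨ z = (0, inl 2) ∨ z = (0, inr 0) ∨ z = (0, inr 1) ∨
      z = (0, inr 2) ∨ z = (1, inl 0) ∨ z = (1, inl 2) ∨ z = (1, inr 1) ∨ z = (1, inr 2) := by
    decide
  intro z hz
  rcases hall z hz with rfl | rfl | rfl | rfl | rfl | rfl | rfl | rfl | rfl
  · exact hR 0 1 (by decide) 0 (by decide) (by decide)
  · exact hR 0 2 (by decide) 0 (by decide) (by decide)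
  · exact hL 0 0 (by decide) (by decide)
  · exact hS 0 1 (by decide) 0 (by decide) (by decide)
  · exact hS 0 2 (by decide) 0 (by decide) (by decide)
  · refine ⟨Em, (0, inl 0), by decide, by simp [Em, pol_apply], ?_, h2⟩
    intro u v hu hv hA
    have := Em_ne hA
    revert u v
    have : ∀ u v : V2, ¬ Zg u → Zg v → u.2 = v.2 ∧ u.1 = 0 ∧ v.1 = 1 →
        u = (0, inl 0) ∧ v = (1, inl 0) := by decide
    intro u v hu hv _ h
    exact this u v hu hv h
  · exact hR 1 2 (by decide) 1 (by decide) (by decide)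
  · exact hL 1 1 (by decide) (by decide)
  · exact hS 1 2 (by decide) 1 (by decide) (by decide)

theorem strict_borel {B : sp6} (h : Strict B) : InBorel B.1 ∧ ∀ i, B.1 i i = 0 := by
  refine ⟨fun i j hij => ?_, fun i => ?_⟩
  · by_contra hc
    have := h i j hc
    omega
  · by_contra hc
    exact lt_irrefl _ (h i i hc)

theorem strict_gk (a b k : ℕ) {B : sp6} (h : Strict B) : rP B (gk a b k) = 0 := by
  rw [borel_gk a b k (strict_borel h).1, (strict_borel h).2, (strict_borel h).2]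
  simp

theorem kill_PD {a b : ℕ} {f : P2} (hf : f ∈ PD (a + b) b) :
    kill Zg f = ∑ k ∈ Finset.range (b + 1), coeff (ak a b k) f • monomial (ak a b k) 1 := by
  classical
  ext α
  rw [coeff_kill, coeff_sum]
  simp only [coeff_smul, coeff_monomial, smul_eq_mul, mul_ite, mul_one, mul_zero]
  split_ifs with h
  · by_cases h0 : coeff α f = 0
    · rw [h0]
      symm
      refine Finset.sum_eq_zero fun k _ => ?_
      split_ifs with h1
      · rw [h1, h0]
      · rfl
    · obtain ⟨h1, h2⟩ := mem_PD.1 hf α h0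
      simp only [Fintype.sum_sum_type, Fin.sum_univ_three] at h1 h2
      rw [h (0, inl 1) (by decide), h (0, inl 2) (by decide), h (0, inr 0) (by decide),
        h (0, inr 1) (by decide), h (0, inr 2) (by decide)] at h1
      rw [h (1, inl 0) (by decide), h (1, inl 2) (by decide), h (1, inr 1) (by decide),
        h (1, inr 2) (by decide)] at h2
      have h3 : ak a b (α (1, inr 0)) = α := by
        ext u
        by_cases hu : Zg u
        · rw [h u hu]
          obtain ⟨e1, e2, e3⟩ := hu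
          simp [ak, e1.symm, e2.symm, e3.symm]
        · have : u = (0, inl 0) ∨ u = (1, inl 1) ∨ u = (1, inr 0) := by
            unfold Zg at hu; tauto
          rcases this with rfl | rfl | rfl <;> simp [ak] <;> omega
      rw [Finset.sum_eq_single (α (1, inr 0))]
      · rw [if_pos h3, h3]
      · intro k _ hk
        rw [if_neg]
        rintro rfl
        simp [ak] at hk
      · intro hc
        exfalso
        apply hc
        rw [Finset.mem_range]
        omega
  · symm
    refine Finset.sum_eq_zero fun k _ => if_neg ?_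
    rintro rfl
    apply h
    rintro u ⟨e1, e2, e3⟩
    simp [ak, e1.symm, e2.symm, e3.symm]

theorem prim_Vm {a b : ℕ} {f : P2} (hf : f ∈ Vm a b) (h : ∀ B, Strict B → rP B f = 0) :
    f = coeff (ak a b 0) f • gk a b 0 := by
  obtain ⟨⟨h1, h2⟩, h3⟩ := hf
  have h2' : actL Em f = 0 := h2
  have h3' : Dop f = 0 := h3
  have key : f - ∑ k ∈ Finset.range (b + 1), coeff (ak a b k) f • gk a b k = 0 := by
    apply slice_g
    · intro B hB
      simp only [map_sub, map_sum, map_smul, h B hB, strict_gk a b _ hB, smul_zero,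
        Finset.sum_const_zero, sub_zero]
    · simp only [map_sub, map_sum, map_smul, h2', Em_gk, smul_zero, Finset.sum_const_zero, sub_zero]
    · rw [map_sub, kill_PD h1, map_sum, sub_eq_zero]
      refine Finset.sum_congr rfl fun k hk => ?_
      rw [map_smul, kill_gk a b k (by rw [Finset.mem_range] at hk; omega)]
  rw [Finset.sum_range_succ', sub_eq_zero] at key
  set g : P2 := ∑ k ∈ Finset.range b,
    coeff (ak a b (k + 1)) f • (xx (inl 0) ^ a * mm ^ (b - (k + 1)) * qq ^ k) with hg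
  have h4 : ∑ k ∈ Finset.range b, coeff (ak a b (k + 1)) f • gk a b (k + 1) = qq * g := by
    rw [hg, Finset.mul_sum]
    refine Finset.sum_congr rfl fun k _ => ?_
    rw [gk, mul_smul_comm]
    congr 1
    ring
  rw [h4] at key
  have h5 : Dop (qq * g) = 0 := by
    have := congrArg Dop key
    rw [h3', map_add, map_smul, Dop_g0, smul_zero, add_zero] at this
    exact this.symm
  have h6 : qq * g = 0 := by
    apply ip_definite
    rw [← ip_Dop, h5, ip_zero_left]
  rw [h6, zero_add] at key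
  exact key

theorem Vm_min (a b : ℕ) : MinInv rP Set.univ (Vm a b) := by
  apply minInv_of_socle (fischer V2) (fun A _ => ⟨adj A, Set.mem_univ _, rP_adj A⟩) (Vm_inv a b)
    (g0_ne a b)
  intro U hU hinv hU0
  obtain ⟨f, hf, hf0, hL⟩ := exists_prim (fun u : V2 => ht u.2)
    ((fun B : sp6 => bigL B.1) '' {B | Strict B}) (by
      rintro _ ⟨B, hB, rfl⟩ u v h
      exact hB _ _ (big_ne h).2) U (by
      rintro _ ⟨B, -, rfl⟩ f hf
      rw [← rP_apply]; exact hinv B (Set.mem_univ _) f hf) hU0 (3 * (a + b + b)) (by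
      intro f hf α hα
      obtain ⟨h1, h2⟩ := mem_PD.1 (hU hf).1.1 α hα
      rw [weight_sum, Fintype.sum_prod_type, Fin.sum_univ_two]
      simp only [Fintype.sum_sum_type, Fin.sum_univ_three, ht_inl, ht_inr, nsmul_eq_mul] at h1 h2 ⊢
      simp only [Fin.val_zero, Fin.val_one, Fin.val_two]
      omega)
  have h1 := prim_Vm (hU hf) fun B hB => by rw [rP_apply]; exact hL _ ⟨B, hB, rfl⟩
  have h2 : coeff (ak a b 0) f ≠ 0 := fun h => hf0 (by rw [h1, h, zero_smul])
  have h3 : gk a b 0 = (coeff (ak a b 0) f)⁻¹ • f := by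
    conv_rhs => rw [h1]
    rw [smul_smul]
    conv_rhs => rw [← h1]
    rw [inv_mul_cancel₀ h2, one_smul]
  rw [h3]
  exact U.smul_mem _ hf

end Pool.Agent.Work.MP_cdf40b_al
end

-- merged part: Pool.Agent.Work.MP_cdf40b_al.Count
section
namespace Pool.Agent.Work.MP_cdf40b_al

open MvPolynomial Sum
open Module (End finrank)
open scoped ComplexConjugate Matrix Kronecker

attribute [local instance 100] LieRing.ofAssociativeRing

/-- primitive vectors for `sl₂³` of given bidegree and weight -/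
noncomputable def W (m n : ℤ) (r : Fin 3 → ℤ) : Submodule ℂ P2 :=
  PD m n ⊓ PH r ⊓ ⨅ p, LinearMap.ker (rP (Lr p))

theorem mem_W {m n : ℤ} {r : Fin 3 → ℤ} {f : P2} :
    f ∈ W m n r ↔ f ∈ PD m n ∧ f ∈ PH r ∧ ∀ p, rP (Lr p) f = 0 := by
  simp [W, and_assoc]

instance W_fd (m n : ℤ) (r : Fin 3 → ℤ) : FiniteDimensional ℂ (W m n r) :=
  Submodule.finiteDimensional_of_le (S₂ := PD m n) (inf_le_left.trans inf_le_left)

theorem rP_Lr (p : Fin 3) (f : P2) : rP (Lr p) f =
    X (0, inl p) * pderiv (0, inr p) f + X (1, inl p) * pderiv (1, inr p) f := by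
  simp [rP_apply, actL_apply, act, Fintype.sum_prod_type, bigL_apply, Lr, Matrix.single_apply,
    ite_and]

theorem Lr_ineq {p : Fin 3} {f : P2} (hf : rP (Lr p) f = 0) :
    ∀ (k : ℕ) (α : V2 →₀ ℕ), α (0, inl p) = k → coeff α f ≠ 0 → α (1, inr p) ≤ k := by
  classical
  intro k
  induction k using Nat.strong_induction_on with
  | _ k ih =>
  intro α hk hα
  by_contra hc
  push Not at hc
  have h1 : α - Finsupp.single (1, inr p) 1 + Finsupp.single (1, inr p) 1 = α :=
    tsub_add_cancel_of_le (Finsupp.single_le_iff.2 (by omega))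
  have h2 := congrArg (coeff (α - Finsupp.single (1, inr p) 1 + Finsupp.single (1, inl p) 1)) hf
  rw [rP_Lr, coeff_add, coeff_zero, coeff_X_mul', coeff_X_mul', if_pos (c := (1, inl p) ∈ _)
    (by simp), add_tsub_cancel_right, coeff_pderiv, coeff_pderiv, h1] at h2
  have h3 : coeff α f * (((α - Finsupp.single (1, inr p) 1 : V2 →₀ ℕ) (1, inr p) : ℂ) + 1) ≠ 0 :=
    mul_ne_zero hα (Nat.cast_add_one_ne_zero _)
  split_ifs at h2 with h4
  · have h5 : k ≠ 0 := by
      rw [← hk]
      simpa using h4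
    have h6 := ih (k - 1) (by omega) (α - Finsupp.single (1, inr p) 1 +
      Finsupp.single (1, inl p) 1 - Finsupp.single (0, inl p) 1 + Finsupp.single (0, inr p) 1)
      (by simp [hk]) (by
        intro h7
        rw [h7, zero_mul, zero_add] at h2
        exact h3 h2)
    simp at h6
    omega
  · rw [zero_add] at h2
    exact h3 h2

def tv (β : ℕ × ℕ × ℕ) : Fin 3 → ℕ := ![β.1, β.2.1, β.2.2]

def box (x : Fin 3 → ℕ) : Finset (ℕ × ℕ × ℕ) :=
  Finset.range (x 0 + 1) ×ˢ Finset.range (x 1 + 1) ×ˢ Finset.range (x 2 + 1)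

def sm (β : ℕ × ℕ × ℕ) : ℤ := β.1 + β.2.1 + β.2.2

def TT (N : ℕ) (m n : ℤ) (x : Fin 3 → ℕ) : Finset ((ℕ × ℕ × ℕ) × (ℕ × ℕ × ℕ)) :=
  (box x ×ˢ box fun _ => N).filter fun t =>
    sm t.1 + sm t.2 = n ∧ (x 0 + x 1 + x 2 : ℤ) - sm t.1 + sm t.2 = m

noncomputable def mono (x : Fin 3 → ℕ) (t : (ℕ × ℕ × ℕ) × (ℕ × ℕ × ℕ)) : V2 →₀ ℕ :=
  Finsupp.equivFunOnFinite.symm fun u =>
    if u.1 = 0 then Sum.elim (fun p => x p - tv t.1 p + tv t.2 p) 0 u.2
    else Sum.elim (tv t.1) (tv t.2) u.2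

theorem mono_inj (x : Fin 3 → ℕ) : Function.Injective (mono x) := by
  rintro ⟨⟨a0, a1, a2⟩, ⟨b0, b1, b2⟩⟩ ⟨⟨c0, c1, c2⟩, ⟨d0, d1, d2⟩⟩ h
  have h1 := fun u => congrArg (fun α : V2 →₀ ℕ => α u) h
  have e0 := h1 (1, inl 0)
  have e1 := h1 (1, inl 1)
  have e2 := h1 (1, inl 2)
  have e3 := h1 (1, inr 0)
  have e4 := h1 (1, inr 1)
  have e5 := h1 (1, inr 2)
  simp [mono, tv] at e0 e1 e2 e3 e4 e5
  simp [e0, e1, e2, e3, e4, e5]

noncomputable def qp (p : Fin 3) : P2 := xx (inl p) * yy (inr p) - xx (inr p) * yy (inl p)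

noncomputable def gt (x : Fin 3 → ℕ) (t : (ℕ × ℕ × ℕ) × (ℕ × ℕ × ℕ)) : P2 :=
  ∏ p, xx (inl p) ^ (x p - tv t.1 p) * yy (inl p) ^ tv t.1 p * qp p ^ tv t.2 p

def Zh (u : V2) : Prop := u.1 = 0 ∧ u.2.isRight = true

instance : DecidablePred Zh := fun u => by unfold Zh; infer_instance

theorem kill_gt (x : Fin 3 → ℕ) (t : (ℕ × ℕ × ℕ) × (ℕ × ℕ × ℕ)) :
    kill Zh (gt x t) = monomial (mono x t) 1 := by
  have h1 : ∀ p, kill Zh (xx (inl p)) = X (0, inl p) := fun p => by simp [xx, kill_X, Zh]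
  have h2 : ∀ p, kill Zh (yy (inl p)) = X (1, inl p) := fun p => by simp [yy, kill_X, Zh]
  have h3 : ∀ p, kill Zh (qp p) = X (0, inl p) * X (1, inr p) := fun p => by
    simp [qp, xx, yy, kill_X, Zh]
  simp only [gt, map_prod, map_mul, map_pow, h1, h2, h3]
  simp only [mul_pow, X_pow_eq_monomial, monomial_mul, mul_one, Fin.prod_univ_three]
  congr 2
  ext ⟨k, p | p⟩ <;> fin_cases k <;> fin_cases p <;> simp [mono]

theorem actL_prod_zero {σ : Type} [Fintype σ] [DecidableEq σ] (A : Matrix σ σ ℂ) {ι : Type*}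
    (s : Finset ι) (g : ι → MvPolynomial σ ℂ) (h : ∀ i, actL A (g i) = 0) :
    actL A (∏ i ∈ s, g i) = 0 := by
  classical
  induction s using Finset.induction_on with
  | empty => simp [actL_one]
  | insert a s ha ih => rw [Finset.prod_insert ha, actL_mul, ih, h]; simp

theorem actL_pow_zero {σ : Type} [Fintype σ] [DecidableEq σ] (A : Matrix σ σ ℂ)
    {g : MvPolynomial σ ℂ} (h : actL A g = 0) (n : ℕ) : actL A (g ^ n) = 0 := by
  have := actL_pow_eig A (c := 0) (by rw [h, zero_smul]) n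
  simpa using this

theorem gt_mem {N : ℕ} {m n : ℤ} {x : Fin 3 → ℕ} {t : (ℕ × ℕ × ℕ) × (ℕ × ℕ × ℕ)}
    (ht : t ∈ TT N m n x) : gt x t ∈ W m n fun p => x p := by
  obtain ⟨⟨a0, a1, a2⟩, ⟨b0, b1, b2⟩⟩ := t
  simp only [TT, box, sm, Finset.mem_filter, Finset.mem_product, Finset.mem_range] at ht
  rw [mem_W]
  refine ⟨?_, ?_, fun p => ?_⟩
  · have h1 : ∀ p, IsWeightedHomogeneous wD (qp p) (1, 1) := fun p =>
      ((xx_PD _).mul (yy_PD _)).sub ((xx_PD _).mul (yy_PD _))
    have := IsWeightedHomogeneous.prod Finset.univ _ _ fun p _ =>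
      (((xx_PD (inl p)).pow (x p - tv (a0, a1, a2) p)).mul
        ((yy_PD (inl p)).pow (tv (a0, a1, a2) p))).mul ((h1 p).pow (tv (b0, b1, b2) p))
    have e : (∑ p : Fin 3, ((x p - tv (a0, a1, a2) p) • ((1 : ℤ), (0 : ℤ)) +
        tv (a0, a1, a2) p • ((0 : ℤ), (1 : ℤ)) + tv (b0, b1, b2) p • ((1 : ℤ), (1 : ℤ)))) =
        (m, n) := by
      ext <;> simp [Fin.sum_univ_three, tv] <;> omega
    rw [e] at this
    exact this
  · have h1 : ∀ p, IsWeightedHomogeneous wH (qp p) 0 := by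
      intro p
      have h1 := (isWeightedHomogeneous_X ℂ wH (0, inl p)).mul
        (isWeightedHomogeneous_X ℂ wH (1, inr p))
      have h2 := (isWeightedHomogeneous_X ℂ wH (0, inr p)).mul
        (isWeightedHomogeneous_X ℂ wH (1, inl p))
      have e1 : wH (0, inl p) + wH (1, inr p) = 0 := by
        simp [wH, plane_inl, plane_inr, ← Pi.single_add]
      have e2 : wH (0, inr p) + wH (1, inl p) = 0 := by
        simp [wH, plane_inl, plane_inr, ← Pi.single_add]
      rw [e1] at h1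
      rw [e2] at h2
      exact h1.sub h2
    have := IsWeightedHomogeneous.prod Finset.univ _ _ fun p _ =>
      (((isWeightedHomogeneous_X ℂ wH (0, inl p)).pow (x p - tv (a0, a1, a2) p)).mul
        ((isWeightedHomogeneous_X ℂ wH (1, inl p)).pow (tv (a0, a1, a2) p))).mul
          ((h1 p).pow (tv (b0, b1, b2) p))
    have e : (∑ p : Fin 3, ((x p - tv (a0, a1, a2) p) • wH (0, inl p) +
        tv (a0, a1, a2) p • wH (1, inl p) + tv (b0, b1, b2) p • (0 : Fin 3 → ℤ))) =
        fun p => (x p : ℤ) := by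
      funext p
      fin_cases p <;> simp [Fin.sum_univ_three, tv, wH, plane_inl] <;> omega
    rw [e] at this
    exact this
  · rw [rP_apply]
    apply actL_prod_zero
    intro q
    have h1 : actL (bigL (Lr p).1) (xx (inl q)) = 0 := by simp [big_xx, Lr]
    have h2 : actL (bigL (Lr p).1) (yy (inl q)) = 0 := by simp [big_yy, Lr]
    have h3 : actL (bigL (Lr p).1) (qp q) = 0 := by
      rw [qp, map_sub, actL_mul, actL_mul, h1, h2, big_xx, big_yy]
      by_cases h : p = q
      · subst h; simp [Lr, Matrix.single_apply]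
      · simp [Lr, h]
    rw [actL_mul, actL_mul, actL_pow_zero _ h1, actL_pow_zero _ h2, actL_pow_zero _ h3]
    simp

theorem mono_Zh (x : Fin 3 → ℕ) (t : (ℕ × ℕ × ℕ) × (ℕ × ℕ × ℕ)) : ∀ z, Zh z → mono x t z = 0 := by
  rintro ⟨k, p | p⟩ ⟨h1, h2⟩
  · simp at h2
  · simp only at h1
    simp [mono, h1]

theorem finrank_W (N : ℕ) (m n : ℤ) (hN : n ≤ N) (x : Fin 3 → ℕ) :
    finrank ℂ (W m n fun p => x p) = (TT N m n x).card := by
  classical
  let Φ : (W m n fun p => x p) →ₗ[ℂ] (TT N m n x → ℂ) :=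
    LinearMap.pi fun t => (lcoeff ℂ (mono x t)) ∘ₗ Submodule.subtype _
  have hΦ : ∀ f t, Φ f t = coeff (mono x t) f.1 := fun f t => rfl
  have hb : Function.Bijective Φ := by
    constructor
    · rw [injective_iff_map_eq_zero]
      rintro ⟨f, hf⟩ h0
      obtain ⟨h1, h2, h3⟩ := mem_W.1 hf
      apply Subtype.ext
      apply slice' Zh
      · rintro ⟨k, p | p⟩ ⟨e1, e2⟩
        · simp at e2
        · simp only at e1
          subst e1
          refine ⟨bigL (Lr p).1, (0, inl p), by simp [Zh], by simp [bigL_apply, Lr], ?_,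
            by rw [← rP_apply]; exact h3 p⟩
          rintro ⟨k, i⟩ ⟨l, j⟩ _ hv hA
          obtain ⟨e1, e2⟩ := big_ne hA
          obtain ⟨e3, e4⟩ := Lr_ne e2
          have e5 := hv.1
          simp only at e1 e3 e4 e5
          simp [e1, e3, e4, e5]
      · ext α
        rw [coeff_kill, coeff_zero]
        split_ifs with h
        · by_contra hα
          obtain ⟨d1, d2⟩ := mem_PD.1 h1 α hα
          have d3 := mem_PH.1 h2 α hα
          have d4 := fun p => Lr_ineq (h3 p) _ α rfl hα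
          have d5 := fun p => h (0, inr p) ⟨rfl, rfl⟩
          simp only [Fintype.sum_sum_type, Fin.sum_univ_three] at d1 d2
          have ht : ((α (1, inl 0), α (1, inl 1), α (1, inl 2)),
              (α (1, inr 0), α (1, inr 1), α (1, inr 2))) ∈ TT N m n x := by
            have := d3 0; have := d3 1; have := d3 2
            have := d4 0; have := d4 1; have := d4 2
            have := d5 0; have := d5 1; have := d5 2
            simp only [TT, box, sm, Finset.mem_filter, Finset.mem_product, Finset.mem_range]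
            omega
          have h4 := congrFun h0 ⟨_, ht⟩
          rw [hΦ] at h4
          apply hα
          have h5 : mono x ((α (1, inl 0), α (1, inl 1), α (1, inl 2)),
              (α (1, inr 0), α (1, inr 1), α (1, inr 2))) = α := by
            have := d3 0; have := d3 1; have := d3 2
            have := d4 0; have := d4 1; have := d4 2
            have := d5 0; have := d5 1; have := d5 2
            ext ⟨k, p | p⟩ <;> fin_cases k <;> fin_cases p <;> simp [mono, tv] <;> omega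
          simpa [h5] using h4
        · rfl
    · intro c
      refine ⟨∑ t : TT N m n x, c t • ⟨gt x t, gt_mem t.2⟩, ?_⟩
      funext s
      rw [map_sum, Finset.sum_apply, Finset.sum_eq_single s]
      · rw [map_smul, Pi.smul_apply, hΦ]
        have := coeff_kill Zh (gt x s) (mono x s)
        rw [if_pos (mono_Zh x s), kill_gt] at this
        simp [← this]
      · intro t _ hts
        rw [map_smul, Pi.smul_apply, hΦ]
        have := coeff_kill Zh (gt x t) (mono x s)
        rw [if_pos (mono_Zh x s), kill_gt, coeff_monomial,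
          if_neg fun h => hts (Subtype.ext (mono_inj x h))] at this
        simp [← this]
      · simp
  rw [(LinearEquiv.ofBijective Φ hb).finrank_eq]
  simp

/-! ### the two rank computations -/

theorem EF_lie : ⁅Em, Fm⁆ = Matrix.diagonal fun u : V2 => if u.1 = 0 then (1 : ℂ) else -1 := by
  simp only [Em, Fm, pol, LieRing.of_associative_ring_bracket, ← Matrix.mul_kronecker_mul]
  ext ⟨k, i⟩ ⟨l, j⟩
  fin_cases k <;> fin_cases l <;> simp [Matrix.diagonal_apply, Matrix.one_apply]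
  split_ifs <;> simp

theorem Fm_inj {m n : ℤ} (h : n < m) {g : P2} (hg : g ∈ PD m n) (h0 : actL Fm g = 0) : g = 0 := by
  have h1 : actL ⁅Em, Fm⁆ g = ((m - n : ℤ) : ℂ) • g := by
    rw [EF_lie]
    apply actL_diag
    intro α hα
    obtain ⟨d1, d2⟩ := mem_PD.1 hg α hα
    rw [Fintype.sum_prod_type, Fin.sum_univ_two, ← d1, ← d2]
    simp [sub_eq_add_neg]
  have h2 := actL_lie Em Fm g
  rw [h0, map_zero, h1] at h2
  have h3 := congrArg (ip g) h2
  rw [ip_zero_right, ip_add_right, ip_actL, Fm_adj, ip_smul_right, ip_self, ip_self] at h3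
  have p1 : 0 ≤ ∑ α ∈ (actL Em g).support, (fac α : ℝ) * Complex.normSq (coeff α (actL Em g)) :=
    Finset.sum_nonneg fun α _ => mul_nonneg (Nat.cast_nonneg _) (Complex.normSq_nonneg _)
  have p2 : 0 ≤ ∑ α ∈ g.support, (fac α : ℝ) * Complex.normSq (coeff α g) :=
    Finset.sum_nonneg fun α _ => mul_nonneg (Nat.cast_nonneg _) (Complex.normSq_nonneg _)
  apply ip_definite
  rw [ip_self]
  generalize ∑ α ∈ (actL Em g).support, (fac α : ℝ) * Complex.normSq (coeff α (actL Em g)) = A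
    at *
  generalize ∑ α ∈ g.support, (fac α : ℝ) * Complex.normSq (coeff α g) = B at *
  have h4 : (0 : ℝ) = A + ((m - n : ℤ) : ℝ) * B := by exact_mod_cast h3
  have h5 : (0 : ℝ) < ((m - n : ℤ) : ℝ) := by exact_mod_cast sub_pos.2 h
  have h6 : B = 0 := by nlinarith
  simp [h6]

theorem qq_ne : qq ≠ 0 := by
  intro h
  have := kill_gk 0 1 1 le_rfl
  rw [gk, h] at this
  simp at this
  exact absurd this.symm (by simp)

theorem rank_E {m n : ℤ} (h : n ≤ m + 1) (r : Fin 3 → ℤ) :
    finrank ℂ (W m n r ⊓ LinearMap.ker (actL Em) : Submodule ℂ P2) +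
      finrank ℂ (W (m + 1) (n - 1) r) = finrank ℂ (W m n r) := by
  apply finrank_adj (fischer V2) _ _ (actL Em) (actL Fm)
  · intro f g
    rw [fischer_inner, fischer_inner, ip_actL, Fm_adj]
  · intro f hf
    obtain ⟨h1, h2, h3⟩ := mem_W.1 hf
    exact mem_W.2 ⟨PD_Em h1, hom_actL0 (wH_pol _) h2, fun p => by rw [← Em_rP, h3, map_zero]⟩
  · intro f hf
    obtain ⟨h1, h2, h3⟩ := mem_W.1 hf
    exact mem_W.2 ⟨PD_Fm h1, hom_actL0 (wH_pol _) h2, fun p => by rw [← Fm_rP, h3, map_zero]⟩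
  · intro g hg
    exact Fm_inj (by omega) (mem_W.1 hg).1

theorem rank_D (m n : ℤ) (r : Fin 3 → ℤ) :
    finrank ℂ (W m n r ⊓ LinearMap.ker (actL Em) ⊓ LinearMap.ker Dop : Submodule ℂ P2) +
      finrank ℂ (W (m - 1) (n - 1) r ⊓ LinearMap.ker (actL Em) : Submodule ℂ P2) =
      finrank ℂ (W m n r ⊓ LinearMap.ker (actL Em) : Submodule ℂ P2) := by
  apply finrank_adj (fischer V2) _ _ Dop (LinearMap.mulLeft ℂ qq)
  · intro f g
    rw [fischer_inner, fischer_inner, ip_Dop]; rfl
  · rintro f ⟨hf, hE⟩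
    obtain ⟨h1, h2, h3⟩ := mem_W.1 hf
    refine ⟨mem_W.2 ⟨PD_Dop h1, ?_, fun p => by rw [← Dop_rP, h3, map_zero]⟩, ?_⟩
    · have := PH_Dop h2
      rw [add_zero] at this
      exact this
    · change actL Em (Dop f) = 0
      rw [← Dop_Em, show actL Em f = 0 from hE, map_zero]
  · rintro f ⟨hf, hE⟩
    obtain ⟨h1, h2, h3⟩ := mem_W.1 hf
    refine ⟨mem_W.2 ⟨?_, ?_, fun p => ?_⟩, ?_⟩
    · have := qq_PD.mul h1
      simp only [Prod.mk_add_mk, add_sub_cancel] at this
      exact this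
    · have := qq_PH.mul h2
      rw [zero_add] at this
      exact this
    · have := rP_qq (Lr p)
      have h4 := h3 p
      rw [rP_apply] at this h4 ⊢
      rw [LinearMap.mulLeft_apply, actL_mul, this, h4]; simp
    · change actL Em (qq * f) = 0
      rw [actL_mul, Em_qq, show actL Em f = 0 from hE]; simp
  · intro g _ h
    exact (mul_eq_zero.1 h).resolve_left qq_ne

end Pool.Agent.Work.MP_cdf40b_al
end
end

-- merged part: Pool.Agent.Work.MP_cdf40b_al.Main
section
-- merged part: Pool.Agent.Work.MP_cdf40b_al.Arith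
section
namespace Pool.Agent.Work.MP_cdf40b_al

open MvPolynomial Sum
open Module (End finrank)

attribute [local instance 100] LieRing.ofAssociativeRing

def BB (x : Fin 3 → ℕ) (j : ℤ) : ℤ := (((box x).filter fun β => sm β = j).card : ℤ)

theorem card_TT (N : ℕ) {m n : ℤ} (x : Fin 3 → ℕ) {K : ℤ}
    (h : m + n = x 0 + x 1 + x 2 + 2 * K) :
    ((TT N m n x).card : ℤ) = BB x (n - K) * BB (fun _ => N) K := by
  have : TT N m n x = ((box x).filter fun β => sm β = n - K) ×ˢ
      ((box fun _ => N).filter fun β => sm β = K) := by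
    ext t
    simp only [TT, Finset.mem_filter, Finset.mem_product]
    constructor
    · rintro ⟨⟨h1, h2⟩, h3, h4⟩
      exact ⟨⟨h1, by omega⟩, h2, by omega⟩
    · rintro ⟨⟨h1, h3⟩, h2, h4⟩
      exact ⟨⟨h1, h2⟩, by omega, by omega⟩
  rw [this, Finset.card_product, BB, BB]
  push_cast
  rfl

theorem card_TT_odd (N : ℕ) {m n : ℤ} (x : Fin 3 → ℕ)
    (h : (m + n + x 0 + x 1 + x 2) % 2 = 1) : (TT N m n x).card = 0 := by
  rw [Finset.card_eq_zero, TT, Finset.filter_eq_empty_iff]
  intro t _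
  omega

theorem sum_int (k : ℕ) (lo hi : ℤ) :
    ∑ c ∈ Finset.range (k + 1), (if lo ≤ (c : ℤ) ∧ (c : ℤ) ≤ hi then (1 : ℤ) else 0) =
      max 0 (min (k : ℤ) hi - max 0 lo + 1) := by
  induction k with
  | zero => simp only [zero_add, Finset.range_one, Finset.sum_singleton]; split_ifs <;> omega
  | succ k ih => rw [Finset.sum_range_succ, ih]; split_ifs <;> omega

theorem sum_eq (k : ℕ) (s u : ℤ) :
    ∑ c ∈ Finset.range (k + 1), (if s + (c : ℤ) = u then (1 : ℤ) else 0) =
      if u - k ≤ s ∧ s ≤ u then 1 else 0 := by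
  have : ∀ c : ℕ, (if s + (c : ℤ) = u then (1 : ℤ) else 0) =
      if u - s ≤ (c : ℤ) ∧ (c : ℤ) ≤ u - s then (1 : ℤ) else 0 := by
    intro c; split_ifs <;> omega
  simp only [this, sum_int]
  split_ifs <;> omega

def DD (r s : ℕ) (u : ℤ) : ℤ := max 0 (min (r : ℤ) u - max 0 (u - s) + 1)

theorem BB_sub (x : Fin 3 → ℕ) (j : ℤ) :
    BB x j - BB x (j - 1) = DD (x 0) (x 1) j - DD (x 0) (x 1) (j - x 2 - 1) := by
  have h1 : ∀ j, BB x j = ∑ a ∈ Finset.range (x 0 + 1), ∑ b ∈ Finset.range (x 1 + 1),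
      (if j - x 2 ≤ (a : ℤ) + b ∧ (a : ℤ) + b ≤ j then (1 : ℤ) else 0) := by
    intro j
    rw [BB, Finset.card_filter, box]
    push_cast
    rw [Finset.sum_product]
    refine Finset.sum_congr rfl fun a _ => ?_
    rw [Finset.sum_product]
    refine Finset.sum_congr rfl fun b _ => ?_
    exact sum_eq (x 2) (a + b) j
  have h2 : ∀ u, DD (x 0) (x 1) u = ∑ a ∈ Finset.range (x 0 + 1), ∑ b ∈ Finset.range (x 1 + 1),
      (if (a : ℤ) + b = u then (1 : ℤ) else 0) := by
    intro u
    simp only [sum_eq, sum_int, DD]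
  rw [h1, h1, h2, h2, ← Finset.sum_sub_distrib, ← Finset.sum_sub_distrib]
  refine Finset.sum_congr rfl fun a _ => ?_
  rw [← Finset.sum_sub_distrib, ← Finset.sum_sub_distrib]
  refine Finset.sum_congr rfl fun b _ => ?_
  split_ifs <;> omega

theorem aux1 (r s t a j : ℕ) (h : r + s + t = a + 2 * j) (h0 : r ≤ a + j) (h1 : s ≤ a + j)
    (h2 : t ≤ a + j) :
    DD r s j - DD r s (j - t - 1) = (min (min (min r (a + j - r))
        (min (min s (a + j - s)) (min t (a + j - t)))) (min a j) + 1 : ℕ) := by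
  have e1 : DD r s j = min (r : ℤ) j - max 0 ((j : ℤ) - s) + 1 := by unfold DD; omega
  have e2 : DD r s (j - t - 1) = max 0 ((j : ℤ) - t) := by unfold DD; omega
  rw [e1, e2]
  clear e1 e2
  obtain ⟨v, hv⟩ : ∃ v : ℕ, min (r : ℤ) j - max 0 ((j : ℤ) - s) + 1 - max 0 ((j : ℤ) - t) = v + 1 :=
    ⟨(min (r : ℤ) j - max 0 ((j : ℤ) - s) - max 0 ((j : ℤ) - t)).toNat, by omega⟩
  rw [hv]
  have : min (min (min r (a + j - r))
        (min (min s (a + j - s)) (min t (a + j - t)))) (min a j) = v := by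
    apply le_antisymm
    · simp only [min_le_iff]
      omega
    · simp only [le_min_iff]
      omega
  rw [this]
  simp

theorem aux2 (r s t a j : ℕ) (h : r + s + t = a + 2 * j)
    (h0 : ¬ (r ≤ a + j ∧ s ≤ a + j ∧ t ≤ a + j)) :
    DD r s j - DD r s (j - t - 1) = 0 := by
  unfold DD; omega

/-- primitive vectors of weight `x` in the model -/
noncomputable def W2 (a b : ℕ) (x : Fin 3 → ℕ) : Submodule ℂ P2 :=
  W (a + b) b (fun p => x p) ⊓ LinearMap.ker (actL Em) ⊓ LinearMap.ker Dop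

theorem finrank_W2 (a b : ℕ) (x : Fin 3 → ℕ) : finrank ℂ (W2 a b x) = mu a b x := by
  have r1 := rank_D (a + b) b (fun p => x p)
  have r2 := rank_E (m := a + b) (n := b) (by omega) (fun p => x p)
  have r3 := rank_E (m := a + b - 1) (n := b - 1) (by omega) (fun p => x p)
  rw [finrank_W b _ _ (by omega), finrank_W b _ _ (by omega)] at r2 r3
  have key : (finrank ℂ (W2 a b x) : ℤ) = (TT b (a + b) b x).card -
      (TT b (a + b + 1) (b - 1) x).card - (TT b (a + b - 1) (b - 1) x).card +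
      (TT b (a + b - 1 + 1) (b - 1 - 1) x).card := by
    unfold W2
    omega
  by_cases hpar : (a + x 0 + x 1 + x 2) % 2 = 1
  · rw [card_TT_odd, card_TT_odd, card_TT_odd, card_TT_odd] at key <;> try omega
    have : mu a b x = 0 := by
      refine Finset.sum_eq_zero fun k hk => if_neg ?_
      rw [Finset.mem_range] at hk
      omega
    omega
  obtain ⟨K, hK⟩ : ∃ K : ℤ, (a : ℤ) + 2 * b = x 0 + x 1 + x 2 + 2 * K :=
    ⟨(a + 2 * b - x 0 - x 1 - x 2) / 2, by omega⟩
  rw [card_TT b x (K := K) (by omega), card_TT b x (K := K) (by omega),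
    card_TT b x (K := K - 1) (by omega), card_TT b x (K := K - 1) (by omega)] at key
  have e1 : (b : ℤ) - 1 - K = b - K - 1 := by ring
  have e2 : (b : ℤ) - 1 - (K - 1) = b - K := by ring
  have e3 : (b : ℤ) - 1 - 1 - (K - 1) = b - K - 1 := by ring
  rw [e1, e2, e3] at key
  have key2 : (finrank ℂ (W2 a b x) : ℤ) = (BB (fun _ => b) K - BB (fun _ => b) (K - 1)) *
      (BB x (b - K) - BB x (b - K - 1)) := by rw [key]; ring
  rw [BB_sub, BB_sub] at key2
  zify
  rw [key2]
  by_cases hK0 : K < 0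
  · have : mu a b x = 0 := by
      refine Finset.sum_eq_zero fun k hk => if_neg ?_
      rw [Finset.mem_range] at hk
      omega
    have h2 : DD b b K - DD b b (K - b - 1) = 0 := by unfold DD; omega
    rw [this, h2]; exact zero_mul _
  by_cases hKb : b < K
  · have : mu a b x = 0 := by
      refine Finset.sum_eq_zero fun k hk => if_neg ?_
      rw [Finset.mem_range] at hk
      omega
    have h2 : DD (x 0) (x 1) (b - K) - DD (x 0) (x 1) (b - K - x 2 - 1) = 0 := by
      unfold DD; omega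
    rw [this, h2]; exact mul_zero _
  obtain ⟨k, rfl⟩ := Int.eq_ofNat_of_zero_le (not_lt.1 hK0)
  have h2 : DD b b k - DD b b (k - b - 1) = k + 1 := by unfold DD; omega
  rw [h2, mu, Finset.sum_eq_single k]
  · have hkb : k ≤ b := by omega
    have e4 : a + b - k = a + (b - k) := by omega
    have e5 : (b : ℤ) - k = (b - k : ℕ) := by omega
    have e6 : x 0 + x 1 + x 2 = a + 2 * (b - k) := by omega
    rw [e4, e5]
    split_ifs with h
    · rw [Nat.cast_mul, aux1 _ _ _ a _ e6 (h.2 0) (h.2 1) (h.2 2), Nat.cast_add_one k]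
    · have h3 : ¬ (x 0 ≤ a + (b - k) ∧ x 1 ≤ a + (b - k) ∧ x 2 ≤ a + (b - k)) := by
        rintro ⟨h0, h1, h2⟩
        apply h
        refine ⟨by omega, fun i => ?_⟩
        fin_cases i <;> assumption
      rw [aux2 _ _ _ a _ e6 h3]; exact mul_zero _
  · intro l hl hlk
    rw [Finset.mem_range] at hl
    exact if_neg (by omega)
  · intro h
    rw [Finset.mem_range] at h
    omega

end Pool.Agent.Work.MP_cdf40b_al
end

-- merged part: Pool.Agent.Work.MP_cdf40b_al.Decomp
section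
namespace Pool.Agent.Work.MP_cdf40b_al

open Module DirectSum

attribute [local instance 100] LieRing.ofAssociativeRing

variable {L : Type*} [LieRing L] [LieAlgebra ℂ L]
variable {M : Type*} [AddCommGroup M] [Module ℂ M] {M' : Type*} [AddCommGroup M'] [Module ℂ M']

theorem cyc_orth_cyc (c : InnerProductSpace.Core ℂ M) {ρ : L →ₗ⁅ℂ⁆ End ℂ M} {S N : Set L}
    (hNS : N ⊆ S)
    (hadj : ∀ x ∈ S, ∃ y ∈ S, ∀ u v, c.inner u (ρ x v) = c.inner (ρ y u) v)
    {w w' : M} (hinv : Inv ρ S (cyc ρ N w')) (h0 : c.inner w w' = 0)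
    (hprim : ∀ f ∈ N, ∀ u, c.inner w (ρ f u) = 0) :
    ∀ u ∈ cyc ρ N w, ∀ u' ∈ cyc ρ N w', c.inner u' u = 0 := by
  have h1 := cyc_orth (ρ := ρ) (N := N) (w := w') (ipl c w) h0 hprim
  have h2 : cyc ρ N w ≤ ⨅ u ∈ cyc ρ N w', LinearMap.ker (ipl c u) := by
    apply cyc_le (fun x hx => inv_orth c hadj hinv x (hNS hx))
    simp only [Submodule.mem_iInf, LinearMap.mem_ker, ipl_apply]
    intro u hu
    exact core_symm_zero c (h1 hu)
  intro u hu u' hu'
  have := h2 hu
  simp only [Submodule.mem_iInf, LinearMap.mem_ker, ipl_apply] at this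
  exact this u' hu'

theorem decomp_equiv (c : InnerProductSpace.Core ℂ M) {ρ : L →ₗ⁅ℂ⁆ End ℂ M}
    {ρ' : L →ₗ⁅ℂ⁆ End ℂ M'} {S : Set L}
    (hadj : ∀ x ∈ S, ∃ y ∈ S, ∀ u v, c.inner u (ρ x v) = c.inner (ρ y u) v)
    {V : Submodule ℂ M} [FiniteDimensional ℂ V] (hV : Inv ρ S V)
    {J : Type} [DecidableEq J] (C : J → Submodule ℂ M) (π : J → Submodule ℂ M')
    (hCV : ∀ j, C j ≤ V) (hC : ∀ j, Inv ρ S (C j)) (hπ : ∀ j, Inv ρ' S (π j))
    (horth : ∀ i j, i ≠ j → ∀ u ∈ C i, ∀ v ∈ C j, c.inner u v = 0)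
    (hcomp : ∀ U ≤ V, Inv ρ S U → (∀ j, ∀ u ∈ C j, ∀ v ∈ U, c.inner u v = 0) → U = ⊥)
    (e : ∀ j, C j ≃ₗ[ℂ] π j)
    (he : ∀ j, ∀ x ∈ S, ∀ u v : C j, (v : M) = ρ x u → (e j v : M') = ρ' x (e j u)) :
    ∃ E : V ≃ₗ[ℂ] ⨁ j, π j, ∀ x ∈ S, ∀ u v : V, (v : M) = ρ x u →
      ∀ j, (E v j : M') = ρ' x (E u j) := by
  let Φ : (⨁ j, π j) →ₗ[ℂ] M :=
    DirectSum.toModule ℂ J M fun j => (C j).subtype ∘ₗ (e j).symm.toLinearMap
  have hΦ : ∀ j (p : π j), Φ (lof ℂ J (fun j => π j) j p) = ((e j).symm p : M) := by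
    intro j p
    simp [Φ]
  have hΦV : ∀ d, Φ d ∈ V := by
    intro d
    induction d using DirectSum.induction_on with
    | zero => simp
    | of j p => exact (hΦ j p).symm ▸ hCV j ((e j).symm p).2
    | add x y hx hy => rw [map_add]; exact add_mem hx hy
  have hip : ∀ j, ∀ u ∈ C j, ∀ d, c.inner u (Φ d) = c.inner u ((e j).symm (d j) : M) := by
    intro j u hu d
    induction d using DirectSum.induction_on with
    | zero => simp
    | of i p =>
      rw [← lof_eq_of ℂ, hΦ]
      by_cases hij : i = j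
      · subst hij
        simp
      · rw [lof_eq_of, DirectSum.of_eq_of_ne _ _ _ (Ne.symm hij)]
        simp only [map_zero, ZeroMemClass.coe_zero, core_zero_right]
        exact horth j i (Ne.symm hij) u hu _ ((e i).symm p).2
    | add x y hx hy =>
      rw [map_add, core_add_right, hx, hy, DirectSum.add_apply, map_add, Submodule.coe_add,
        core_add_right]
  have hinj : Function.Injective Φ := by
    rw [injective_iff_map_eq_zero]
    intro d hd
    ext j
    have h1 := hip j _ ((e j).symm (d j)).2 d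
    rw [hd, core_zero_right] at h1
    have h2 := c.definite _ h1.symm
    have h3 : (e j).symm (d j) = 0 := Subtype.ext h2
    have h4 : d j = 0 := by simpa using h3
    simp [h4]
  have hequiv : ∀ x (hx : x ∈ S) d,
      Φ (DirectSum.lmap (fun j => (ρ' x).restrict (hπ j x hx)) d) = ρ x (Φ d) := by
    intro x hx d
    induction d using DirectSum.induction_on with
    | zero => simp
    | of j p =>
      rw [← lof_eq_of ℂ, DirectSum.lmap_lof, hΦ, hΦ]
      have h1 := he j x hx ((e j).symm p) ⟨_, hC j x hx _ ((e j).symm p).2⟩ rfl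
      have h2 : (ρ' x).restrict (hπ j x hx) p =
          e j ⟨_, hC j x hx _ ((e j).symm p).2⟩ := by
        apply Subtype.ext
        rw [h1]
        simp
      rw [h2]
      simp
    | add x y hx hy => simp only [map_add, hx, hy]
  have hRV : LinearMap.range Φ ≤ V := by
    rintro _ ⟨d, rfl⟩
    exact hΦV d
  have hRinv : Inv ρ S (LinearMap.range Φ) := by
    rintro x hx _ ⟨d, rfl⟩
    exact ⟨_, hequiv x hx d⟩
  have : FiniteDimensional ℂ (LinearMap.range Φ) := Submodule.finiteDimensional_of_le hRV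
  have hVR : V ≤ LinearMap.range Φ := by
    apply le_of_orth c _ _ hRV
    intro v hv h
    have h1 : V ⊓ ⨅ u ∈ LinearMap.range Φ, LinearMap.ker (ipl c u) = ⊥ := by
      apply hcomp _ inf_le_left (inv_inf hV (inv_orth c hadj hRinv))
      intro j u hu v hv
      have h2 := hv.2
      simp only [SetLike.mem_coe, Submodule.mem_iInf, LinearMap.mem_ker, ipl_apply] at h2
      apply h2
      exact ⟨lof ℂ J (fun j => π j) j (e j ⟨u, hu⟩), by rw [hΦ]; simp⟩
    have h2 : v ∈ V ⊓ ⨅ u ∈ LinearMap.range Φ, LinearMap.ker (ipl c u) := by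
      refine ⟨hv, ?_⟩
      simp only [SetLike.mem_coe, Submodule.mem_iInf, LinearMap.mem_ker, ipl_apply]
      exact h
    rwa [h1] at h2
  have hb : Function.Bijective (Φ.codRestrict V hΦV) := by
    constructor
    · intro a b hab
      exact hinj (congrArg Subtype.val hab)
    · rintro ⟨v, hv⟩
      obtain ⟨d, rfl⟩ := hVR hv
      exact ⟨d, rfl⟩
  refine ⟨(LinearEquiv.ofBijective _ hb).symm, ?_⟩
  intro x hx u v huv j
  obtain ⟨d, rfl⟩ := hb.2 u
  have hv : v = Φ.codRestrict V hΦV (DirectSum.lmap (fun j => (ρ' x).restrict (hπ j x hx)) d) :=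
    Subtype.ext (by rw [huv]; exact (hequiv x hx d).symm)
  have e1 : ∀ g, (LinearEquiv.ofBijective _ hb).symm (Φ.codRestrict V hΦV g) = g := fun g =>
    (LinearEquiv.ofBijective _ hb).symm_apply_apply g
  rw [hv, e1, e1]
  simp

end Pool.Agent.Work.MP_cdf40b_al
end

-- merged part: Pool.Agent.Work.MP_cdf40b_al.Main
section
namespace Pool.Agent.Work.MP_cdf40b_al

open MvPolynomial Sum DirectSum
open Module (End finrank)

attribute [local instance 100] LieRing.ofAssociativeRing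

theorem slice_h {f : P2} (h3 : ∀ p, rP (Lr p) f = 0) (h : kill Zh f = 0) : f = 0 := by
  refine slice' Zh ?_ h
  rintro ⟨k, p | p⟩ ⟨e1, e2⟩
  · simp at e2
  · simp only at e1
    subst e1
    refine ⟨bigL (Lr p).1, (0, inl p), by simp [Zh], by simp [bigL_apply, Lr], ?_,
      by rw [← rP_apply]; exact h3 p⟩
    rintro ⟨k, i⟩ ⟨l, j⟩ _ hv hA
    obtain ⟨e1, e2⟩ := big_ne hA
    obtain ⟨e3, e4⟩ := Lr_ne e2
    have e5 := hv.1
    simp only at e1 e3 e4 e5
    simp [e1, e3, e4, e5]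

theorem bigL_diag (d : I → ℂ) :
    bigL (Matrix.diagonal d) = Matrix.diagonal fun u : V2 => d u.2 := by
  ext ⟨k, i⟩ ⟨l, j⟩
  simp only [bigL_apply, Matrix.diagonal_apply, Prod.mk.injEq]
  by_cases h1 : k = l <;> by_cases h2 : i = j <;> simp [h1, h2]

theorem borel_W {m n : ℤ} {x : Fin 3 → ℕ} {w : P2} (hw : w ∈ W m n fun p => x p) {B : sp6}
    (hH : B ∈ SH) (hB : InBorel B.1) : rP B w = chi x B • w := by
  obtain ⟨-, h2, h3⟩ := mem_W.1 hw
  rw [rP_apply, borelH_eq hH hB, map_add, map_sum, map_add, map_sum, LinearMap.add_apply,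
    LinearMap.sum_apply]
  have : ∀ p, actL (bigL (B.1 (inl p) (inr p) • (Lr p).1)) w = 0 := by
    intro p
    rw [map_smul, map_smul, LinearMap.smul_apply, ← rP_apply, h3, smul_zero]
  simp only [this, Finset.sum_const_zero, add_zero, bigL_diag]
  apply actL_diag
  intro α hα
  have h4 := mem_PH.1 h2 α hα
  have h5 : ∀ p, (x p : ℂ) = (α (0, inl p) : ℂ) + α (1, inl p) - α (0, inr p) - α (1, inr p) := by
    intro p
    exact_mod_cast (h4 p).symm
  simp only [chi, h5, Fintype.sum_prod_type, Fin.sum_univ_two, Fintype.sum_sum_type,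
    Fin.sum_univ_three, Sum.elim_inl, Sum.elim_inr]
  ring

theorem W2_le (a b : ℕ) (x : Fin 3 → ℕ) : W2 a b x ≤ Vm a b :=
  fun _ hf => ⟨⟨(mem_W.1 hf.1.1).1, hf.1.2⟩, hf.2⟩

instance W2_fd (a b : ℕ) (x : Fin 3 → ℕ) : FiniteDimensional ℂ (W2 a b x) :=
  Submodule.finiteDimensional_of_le (W2_le a b x)

theorem hdec_of {M : Type*} [AddCommGroup M] [Module ℂ M] (ρ : sp6 →ₗ⁅ℂ⁆ End ℂ M) {w : M} {c : ℂ}
    {A B : sp6} (h : ρ B w = c • w) : ρ A w = c • w + ρ (A - B) w := by
  rw [map_sub, LinearMap.sub_apply, h]; abel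

theorem wH_Lr (p : Fin 3) (u v : V2) (h : bigL (Lr p).1 u v ≠ 0) :
    wH u = Pi.single p 2 + wH v := by
  obtain ⟨-, e2⟩ := big_ne h
  obtain ⟨e3, e4⟩ := Lr_ne e2
  simp [wH, e3, e4, plane_inl, plane_inr, ← Pi.single_add]

theorem prim_zero {a b : ℕ} {f : P2} (hf : f ∈ Vm a b) (hL : ∀ p, rP (Lr p) f = 0)
    (h : ∀ x, ∀ w ∈ W2 a b x, ip w f = 0) : f = 0 := by
  classical
  have key : ∀ r, weightedHomogeneousComponent wH r f = 0 := by
    intro r
    set g := weightedHomogeneousComponent wH r f with hg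
    have hc : ∀ α, coeff α g ≠ 0 → coeff α f = coeff α g := by
      intro α hα
      rw [hg, coeff_weightedHomogeneousComponent] at hα ⊢
      split_ifs at hα ⊢
      · rfl
      · exact absurd rfl hα
    have g1 : g ∈ PD (a + b) b := by
      rw [mem_PD]
      intro α hα
      exact mem_PD.1 hf.1.1 α (hc α hα ▸ hα)
    have g2 : g ∈ PH r := weightedHomogeneousComponent_mem _ _ _
    have g3 : ∀ p, rP (Lr p) g = 0 := by
      intro p
      rw [hg, comp_comm (rP (Lr p)) (Pi.single p 2) (fun f m hf => by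
        rw [rP_apply]; exact hom_actL (wH_Lr p) hf), hL, map_zero]
    have g4 : actL Em g = 0 := by
      rw [hg, comp_comm (actL Em) 0 (fun f m hf => by
        rw [add_zero]; exact hom_actL0 (wH_pol _) hf), show actL Em f = 0 from hf.1.2, map_zero]
    have g5 : Dop g = 0 := by
      rw [hg, comp_comm Dop 0 (fun f m hf => PH_Dop hf), show Dop f = 0 from hf.2, map_zero]
    by_cases hr : ∀ p, 0 ≤ r p
    · have e : r = fun p => ((r p).toNat : ℤ) := funext fun p => (Int.toNat_of_nonneg (hr p)).symm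
      have h1 : g ∈ W2 a b fun p => (r p).toNat :=
        ⟨⟨mem_W.2 ⟨g1, e ▸ g2, g3⟩, g4⟩, g5⟩
      have h2 := h _ g h1
      apply ip_definite
      rw [← h2, ip, ip]
      refine Finset.sum_congr rfl fun α hα => ?_
      rw [hc α (mem_support_iff.1 hα)]
    · push Not at hr
      obtain ⟨p, hp⟩ := hr
      apply slice_h g3
      ext α
      rw [coeff_kill, coeff_zero]
      split_ifs with h1
      · by_contra hα
        have d3 := mem_PH.1 g2 α hα p
        have d4 := Lr_ineq (g3 p) _ α rfl hα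
        have d5 := h1 (0, inr p) ⟨rfl, rfl⟩
        omega
      · rfl
  ext α
  have := congrArg (coeff α) (key (Finsupp.weight wH α))
  rwa [coeff_weightedHomogeneousComponent, if_pos rfl] at this

theorem model_decomp (a b : ℕ) :
    ∃ E : Vm a b ≃ₗ[ℂ] ⨁ j : (Σ x : Fin 3 → ℕ, Fin (mu a b x)), piMod j.1,
      ∀ A ∈ SH, ∀ u v : Vm a b, (v : P2) = rP A u →
        ∀ j, (E v j : MvPolynomial I ℂ) = rS A (E u j) := by
  classical
  have hadj : ∀ x ∈ SH, ∃ y ∈ SH, ∀ u v,
      (fischer V2).inner u (rP x v) = (fischer V2).inner (rP y u) v :=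
    fun A hA => ⟨adj A, SH_adj A hA, rP_adj A⟩
  have hb : ∀ x, ∃ b' : Fin (mu a b x) → P2, (∀ i, b' i ∈ W2 a b x) ∧ (∀ i, b' i ≠ 0) ∧
      (∀ i j, i ≠ j → ip (b' i) (b' j) = 0) ∧
      ∀ v, (∀ i, ip (b' i) v = 0) → ∀ w ∈ W2 a b x, ip w v = 0 := by
    intro x
    rw [← finrank_W2]
    exact exists_orth_basis (fischer V2) (W2 a b x)
  choose bs hb1 hb2 hb3 hb4 using hb
  let J := Σ x : Fin 3 → ℕ, Fin (mu a b x)
  let w : J → P2 := fun j => bs j.1 j.2
  have hwW : ∀ j, w j ∈ W2 a b j.1 := fun j => hb1 _ _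
  have hVH : Inv rP SH (Vm a b) := fun A _ => Vm_inv a b A (Set.mem_univ _)
  have hNS : Neg SH h0 ⊆ SH := fun f hf => hf.1
  let C : J → Submodule ℂ P2 := fun j => cyc rP (Neg SH h0) (w j)
  have hCV : ∀ j, C j ≤ Vm a b := fun j =>
    cyc_le (fun A hA => hVH A (hNS hA)) (W2_le _ _ _ (hwW j))
  have hdec2 : ∀ j, ∀ A ∈ SH, ∃ c : ℂ, ∃ y ∈ Submodule.span ℂ (Neg SH h0),
      rP A (w j) = c • w j + rP y (w j) ∧ rS A (wPi j.1) = c • wPi j.1 + rS y (wPi j.1) := by
    intro j A hA
    obtain ⟨B, hB1, hB2, hB3⟩ := borel_dec SH_mask A hA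
    exact ⟨chi j.1 B, A - B, hB3, hdec_of rP (borel_W (hwW j).1.1 hB1 hB2),
      hdec_of rS (borel_wPi j.1 hB1 hB2)⟩
  have hdec : ∀ j, ∀ A ∈ SH, ∃ c : ℂ, ∃ y ∈ Submodule.span ℂ (Neg SH h0),
      rP A (w j) = c • w j + rP y (w j) := by
    intro j A hA
    obtain ⟨c, y, hy, h, -⟩ := hdec2 j A hA
    exact ⟨c, y, hy, h⟩
  have hCinv : ∀ j, Inv rP SH (C j) := fun j => cyc_inv SH_lie hNS (hdec j)
  have hh0 : ∀ j, rP h0 (w j) = chi j.1 h0 • w j := fun j =>
    borel_W (hwW j).1.1 h0_mem_SH h0_borel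
  have hCmin : ∀ j, MinInv rP SH (C j) := by
    intro j
    have : FiniteDimensional ℂ (cyc rP (Neg SH h0) (w j)) :=
      Submodule.finiteDimensional_of_le (hCV j)
    exact minInv_cyc (fischer V2) SH_lie hadj h0_mem_SH (hh0 j) (hdec j)
  have hprim : ∀ j, ∀ f ∈ Neg SH h0, ∀ u, ip (w j) (rP f u) = 0 := by
    intro j f hf u
    have hs : Strict (adj f) := by
      intro i k h
      rw [adj_apply] at h
      exact neg_entry hf fun h2 => h (by rw [h2, star_zero])
    rw [rP_adj, borel_W (hwW j).1.1 (SH_adj f hf.1) (strict_borel hs).1]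
    simp [chi, (strict_borel hs).2, ip_zero_left]
  have he : ∀ j, ∃ e : C j ≃ₗ[ℂ] piMod j.1, ∀ x ∈ SH, ∀ u v : C j, (v : P2) = rP x u →
      (e v : MvPolynomial I ℂ) = rS x (e u) := fun j =>
    uniq_equiv SH_lie (hh0 j) (borel_wPi j.1 h0_mem_SH h0_borel) (hb2 _ _) (wPi_ne _) (hdec2 j)
      (hCmin j) (piMod_min j.1) (mem_cyc_self _ _ _) (wPi_mem _)
  choose e he using he
  refine decomp_equiv (fischer V2) hadj hVH C (fun j => piMod j.1) hCV hCinv
    (fun j => piMod_inv j.1) ?_ ?_ e he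
  · intro i j hij u hu v hv
    refine cyc_orth_cyc (fischer V2) hNS hadj (hCinv i) ?_ (hprim j) v hv u hu
    obtain ⟨x, i⟩ := i
    obtain ⟨y, j⟩ := j
    by_cases hxy : x = y
    · subst hxy
      exact hb3 x j i fun h => hij (by rw [h])
    · refine ip_hom_ne (w := wH) (mem_W.1 (hwW ⟨y, j⟩).1.1).2.1 (mem_W.1 (hwW ⟨x, i⟩).1.1).2.1 ?_
      intro h
      apply hxy
      funext p
      have := congrFun h p
      simp only at this
      omega
  · intro U hU hinv horth
    by_contra hU0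
    obtain ⟨f, hf, hf0, hL⟩ := exists_prim (fun u : V2 => ht u.2)
      (Set.range fun p => bigL (Lr p).1) (by
        rintro _ ⟨p, rfl⟩ u v h
        exact strict_Lr p _ _ (big_ne h).2) U (by
        rintro _ ⟨p, rfl⟩ f hf
        rw [← rP_apply]; exact hinv _ (Lr_mem_SH p) f hf) hU0 (3 * (a + b + b)) (by
        intro f hf α hα
        obtain ⟨h1, h2⟩ := mem_PD.1 (hU hf).1.1 α hα
        rw [weight_sum, Fintype.sum_prod_type, Fin.sum_univ_two]
        simp only [Fintype.sum_sum_type, Fin.sum_univ_three, ht_inl, ht_inr,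
          nsmul_eq_mul] at h1 h2 ⊢
        simp only [Fin.val_zero, Fin.val_one, Fin.val_two]
        omega)
    apply hf0
    apply prim_zero (hU hf) (fun p => by rw [rP_apply]; exact hL _ ⟨p, rfl⟩)
    intro x
    apply hb4
    intro i
    exact horth ⟨x, i⟩ _ (mem_cyc_self _ _ _) f hf

theorem main (a b : ℕ) (V : Type*) [AddCommGroup V] [Module ℂ V] [LieRingModule sp6 V]
    [LieModule ℂ sp6 V] [LieModule.IsIrreducible ℂ sp6 V] (v : V) (hv : v ≠ 0)
    (hw : ∀ A : sp6, InBorel A.1 →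
      ⁅A, v⁆ = (((a : ℂ) + b) * A.1 (inl 0) (inl 0) + b * A.1 (inl 1) (inl 1)) • v) :
    ∃ e : V ≃ₗ[ℂ] ⨁ j : (Σ x : Fin 3 → ℕ, Fin (mu a b x)), piMod j.1,
      ∀ A : sp6, InH A.1 → ∀ (u : V) (j : Σ x : Fin 3 → ℕ, Fin (mu a b x)),
        (e ⁅A, u⁆ j : MvPolynomial I ℂ) = act A.1 (e u j : MvPolynomial I ℂ) := by
  let ρ := LieModule.toEnd ℂ sp6 V
  have hmin : MinInv ρ Set.univ ⊤ := by
    refine ⟨fun _ _ _ _ => trivial, fun U _ hU => ?_⟩
    let N : LieSubmodule ℂ sp6 V := { U with lie_mem := fun {x m} hm => hU x trivial m hm }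
    rcases eq_bot_or_eq_top N with h | h
    · left; exact congrArg LieSubmodule.toSubmodule h
    · right; exact congrArg LieSubmodule.toSubmodule h
  have hg : ∀ B : sp6, InBorel B.1 → rP B (gk a b 0) =
      (((a : ℂ) + b) * B.1 (inl 0) (inl 0) + b * B.1 (inl 1) (inl 1)) • gk a b 0 :=
    fun B hB => borel_gk a b 0 hB
  obtain ⟨e1, he1⟩ := uniq_equiv (ρ := ρ) (ρ' := rP) (S := Set.univ) (fun _ _ _ _ => trivial)
    (hw h0 h0_borel) (hg h0 h0_borel) hv (g0_ne a b) (by
      intro A hA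
      obtain ⟨B, -, hB2, hB3⟩ := borel_dec (S := Set.univ) (fun _ _ _ _ => trivial) A hA
      exact ⟨_, A - B, hB3, hdec_of ρ (hw B hB2), hdec_of rP (hg B hB2)⟩)
    hmin (Vm_min a b) trivial (g0_mem a b)
  obtain ⟨E, hE⟩ := model_decomp a b
  refine ⟨(Submodule.topEquiv.symm.trans e1).trans E, fun A hA u j => ?_⟩
  rw [← actL_apply, ← rS_apply]
  exact hE A hA _ _ (he1 A trivial ⟨u, trivial⟩ ⟨⁅A, u⁆, trivial⟩ rfl) j

end Pool.Agent.Work.MP_cdf40b_al
end
end
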